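import Mathlib

namespace D3fc

open Filter Topology

/-- boundedness of `y_{n+3} = 1 + C y_n / y_{n+1}` with all terms `> 1`, `1 < C ≤ 3/2` -/
lemma step_bound {C M Y a0 a1 a2 a3 a4 a5 a6 a7 a8 : ℝ} (hC1 : 1 < C) (hC2 : C ≤ 3/2)
    (hM : 100 ≤ M) (hY : M < Y)
    (h0 : a0 ≤ M) (h7 : a7 ≤ M)
    (l1 : 1 < a1) (l2 : 1 < a2) (l3 : 1 < a3) (l4 : 1 < a4) (l5 : 1 < a5) (l6 : 1 < a6)
    (l7 : 1 < a7) (l8 : 1 < a8)
    (r3 : (a3 - 1) * a1 = C * a0) (r4 : (a4 - 1) * a2 = C * a1)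
    (r6 : (a6 - 1) * a4 = C * a3) (r7 : (a7 - 1) * a5 = C * a4) (r8 : (a8 - 1) * a6 = C * a5)
    (r10 : (Y - 1) * a8 = C * a7) : False := by
  have hY100 : 100 < Y := lt_of_le_of_lt hM hY
  have hC0 : 0 < C := by linarith
  -- a8 ≤ C * 100/99
  have e8 : a8 ≤ C * (100/99) := by
    have h9 : (Y - 1) * a8 ≤ C * Y := by
      rw [r10]; exact mul_le_mul_of_nonneg_left (by linarith) hC0.le
    by_contra hcon
    push Not at hcon
    have h10 := mul_lt_mul_of_pos_left hcon (show (0:ℝ) < Y - 1 by linarith)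
    nlinarith [mul_pos hC0 (show (0:ℝ) < Y - 100 by linarith)]
  have e7 : (Y - 1) / C ≤ a7 := by
    rw [div_le_iff₀ hC0]
    have : (Y - 1) * 1 ≤ (Y - 1) * a8 := mul_le_mul_of_nonneg_left l8.le (by linarith)
    linarith
  have e6 : C ≤ (a8 - 1) * a6 := by
    rw [r8]; exact le_mul_of_one_le_right hC0.le l5.le
  have e6' : C ≤ (C * (100/99) - 1) * a6 :=
    e6.trans (mul_le_mul_of_nonneg_right (by linarith) (by linarith))
  -- a4 ≥ (a7 - 1)/C
  have e4 : a7 - 1 ≤ C * a4 := by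
    rw [← r7]; exact le_mul_of_one_le_right (by linarith) l5.le
  have e4' : Y - 1 - C ≤ C ^ 2 * a4 := by
    have h1 : Y - 1 ≤ C * a7 := by rw [div_le_iff₀ hC0] at e7; linarith
    have h2 := mul_le_mul_of_nonneg_left e4 hC0.le
    have h3 : C * (C * a4) = C ^ 2 * a4 := by ring
    linarith
  have hCC : C ^ 2 ≤ 9/4 := by nlinarith
  have e4'' : (Y - 5/2) ≤ (9/4) * a4 := by
    have h1 := mul_le_mul_of_nonneg_right hCC (show (0:ℝ) ≤ a4 by linarith)
    linarith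
  -- a6 - 1 ≥ C
  have e6'' : C ≤ a6 - 1 := by
    by_contra hcon
    push Not at hcon
    have : (C * (100/99) - 1) * a6 < (C * (100/99) - 1) * (1 + C) :=
      mul_lt_mul_of_pos_left (by linarith) (by linarith)
    have h5 : C < (C * (100/99) - 1) * (1 + C) := lt_of_le_of_lt e6' this
    nlinarith [mul_nonneg (show (0:ℝ) ≤ C - 1 by linarith) (show (0:ℝ) ≤ 3/2 - C by linarith)]
  have e3 : a4 ≤ a3 := by
    have : C * a4 ≤ C * a3 := by
      rw [← r6]; exact mul_le_mul_of_nonneg_right e6'' (by linarith)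
    exact le_of_mul_le_mul_left this hC0
  have e0 : (a4 - 1) ^ 2 ≤ C ^ 2 * a0 := by
    have h1 : C ^ 2 * a0 = (a3 - 1) * ((a4 - 1) * a2) := by
      rw [r4]
      calc C ^ 2 * a0 = C * (C * a0) := by ring
        _ = C * ((a3 - 1) * a1) := by rw [r3]
        _ = _ := by ring
    rw [h1]
    have h2 : (a4 - 1) ≤ (a4 - 1) * a2 := le_mul_of_one_le_right (by linarith) l2.le
    have h3 : (a4 - 1) * (a4 - 1) ≤ (a3 - 1) * ((a4 - 1) * a2) :=
      mul_le_mul (by linarith) h2 (by linarith) (by linarith)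
    rw [sq]; exact h3
  have ha0 : a0 ≤ Y := by linarith
  have e0' : (a4 - 1) ^ 2 ≤ (9/4) * Y := by
    have h2 : 0 ≤ Y := by linarith
    have h3 : 0 ≤ C ^ 2 := by positivity
    have h4 := mul_le_mul_of_nonneg_left ha0 h3
    have h5 := mul_le_mul_of_nonneg_right hCC h2
    linarith
  have h6 : 43 ≤ a4 := by linarith
  have h7 : 42 * (a4 - 1) ≤ (a4 - 1) * (a4 - 1) :=
    mul_le_mul_of_nonneg_right (by linarith) (by linarith)
  rw [sq] at e0'
  linarith

lemma bounded {C : ℝ} (hC1 : 1 < C) (hC2 : C ≤ 3/2) {y : ℕ → ℝ} (h1 : ∀ n, 1 < y n)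
    (hr : ∀ n, (y (n + 3) - 1) * y (n + 1) = C * y n) : ∃ M, ∀ n, y n ≤ M := by
  set M : ℝ := 100 + ∑ k ∈ Finset.range 10, y k with hMdef
  refine ⟨M, ?_⟩
  have hM : 100 ≤ M := by
    have : 0 ≤ ∑ k ∈ Finset.range 10, y k :=
      Finset.sum_nonneg fun k _ => by linarith [h1 k]
    linarith
  intro n
  induction n using Nat.strong_induction_on with
  | _ n ih =>
    by_cases hn : n < 10
    · have : y n ≤ ∑ k ∈ Finset.range 10, y k :=
        Finset.single_le_sum (f := y) (fun k _ => by linarith [h1 k]) (Finset.mem_range.2 hn)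
      linarith
    · push Not at hn
      obtain ⟨m, rfl⟩ : ∃ m, n = m + 10 := ⟨n - 10, by omega⟩
      by_contra hcon
      push Not at hcon
      exact step_bound hC1 hC2 hM hcon (ih m (by omega)) (ih (m + 7) (by omega))
        (h1 (m+1)) (h1 (m+2)) (h1 (m+3)) (h1 (m+4)) (h1 (m+5)) (h1 (m+6)) (h1 (m+7)) (h1 (m+8))
        (hr m) (hr (m+1)) (hr (m+3)) (hr (m+4)) (hr (m+5)) (hr (m+7))

end D3fc
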