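import Mathlib

namespace D3fc

/-- a backward window of the equation `y_{n+3} = 1 + C y_n / y_{n+1}` with all entries in `[I,S]`
and last entry `e` (in polynomial form) -/
def Win (C I S e : ℝ) : Prop :=
  ∃ r q p v t b : ℝ, r ∈ Set.Icc I S ∧ q ∈ Set.Icc I S ∧ p ∈ Set.Icc I S ∧ v ∈ Set.Icc I S ∧
    t ∈ Set.Icc I S ∧ b ∈ Set.Icc I S ∧
    (v - 1) * q = C * r ∧ (t - 1) * p = C * q ∧ (b - 1) * v = C * p ∧ (e - 1) * b = C * t

/-- the two identities behind the argument -/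
lemma win_id {C I S e : ℝ} (hI : 1 < I) (h : Win C I S e) :
    ∃ r p v t : ℝ, r ∈ Set.Icc I S ∧ p ∈ Set.Icc I S ∧ v ∈ Set.Icc I S ∧ t ∈ Set.Icc I S ∧
      (e - 1) * (v + C * p) = C * t * v ∧ (t - 1) * (v - 1) * p = C ^ 2 * r := by
  obtain ⟨r, q, p, v, t, b, hr, hq, hp, hv, ht, hb, h1, h2, h3, h4⟩ := h
  refine ⟨r, p, v, t, hr, hp, hv, ht, ?_, ?_⟩
  · linear_combination (-(e - 1)) * h3 + v * h4
  · linear_combination (v - 1) * h2 + C * h1

lemma upper {C I S : ℝ} (hC : 1 < C) (hI : 1 < I) (hS : 1 + C ≤ S) (h : Win C I S S) :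
    C * I ^ 2 * (S - 1) ^ 2 ≤ ((S - 1) * I + C ^ 2 * S) * ((C - 1) * S + 1) := by
  obtain ⟨r, p, v, t, hr, hp, hv, ht, h1, h2⟩ := win_id hI h
  have ht1 : 0 < t - 1 := by linarith [ht.1]
  have hS1 : 0 < S - 1 := by linarith
  have hp0 : 0 < p := by linarith [hp.1]
  have hv0 : 0 < v := by linarith [hv.1]
  have hC0 : 0 < C := by linarith
  have e1 : v * (C * t - (S - 1)) = (S - 1) * C * p := by linear_combination -h1
  have e2 : 0 < C * t - (S - 1) := by
    have : 0 < v * (C * t - (S - 1)) := by rw [e1]; positivity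
    exact (pos_iff_pos_of_mul_pos this).1 hv0
  have e3 : (S - 1) * C * I ≤ v * (C * t - (S - 1)) := by
    rw [e1]; exact mul_le_mul_of_nonneg_left hp.1 (by positivity)
  have e4 : v * (t - 1) * I ≤ (t - 1) * I + C ^ 2 * S := by
    have h5 : (t - 1) * (v - 1) * I ≤ (t - 1) * (v - 1) * p :=
      mul_le_mul_of_nonneg_left hp.1 (mul_nonneg ht1.le (by linarith [hv.1]))
    have h6 : C ^ 2 * r ≤ C ^ 2 * S := mul_le_mul_of_nonneg_left hr.2 (by positivity)
    nlinarith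
  -- combine
  have e5 : (S - 1) * C * I * ((t - 1) * I) ≤ ((t - 1) * I + C ^ 2 * S) * (C * t - (S - 1)) := by
    calc (S - 1) * C * I * ((t - 1) * I) ≤ v * (C * t - (S - 1)) * ((t - 1) * I) :=
          mul_le_mul_of_nonneg_right e3 (mul_nonneg ht1.le (by linarith))
      _ = (v * (t - 1) * I) * (C * t - (S - 1)) := by ring
      _ ≤ _ := mul_le_mul_of_nonneg_right e4 e2.le
  have e6 : 0 ≤ (S - t) * (C * I * (t - 1) * (S - 1) + (S - 1 - C) * C ^ 2 * S) := by
    apply mul_nonneg (by linarith [ht.2])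
    have : 0 ≤ C * I * (t - 1) * (S - 1) := by
      have : 0 ≤ I := by linarith
      positivity
    have h7 : 0 ≤ (S - 1 - C) * C ^ 2 * S :=
      mul_nonneg (mul_nonneg (by linarith) (by positivity)) (by linarith)
    linarith
  have e7 := mul_le_mul_of_nonneg_left e5 hS1.le
  have e8 : (t - 1) * (C * I ^ 2 * (S - 1) ^ 2)
      ≤ (t - 1) * (((S - 1) * I + C ^ 2 * S) * ((C - 1) * S + 1)) := by
    nlinarith
  exact le_of_mul_le_mul_left e8 ht1

lemma lower {C I S : ℝ} (hC : 1 < C) (hI : 1 < I) (hI2 : I ≤ 1 + C) (hIS : I ≤ S)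
    (h : Win C I S I) :
    ∃ τ : ℝ, I - 1 ≤ τ ∧
      (τ * S + C ^ 2 * I) * (C * τ + (C + 1 - I)) ≤ C * S ^ 2 * (I - 1) * τ := by
  obtain ⟨r, p, v, t, hr, hp, hv, ht, h1, h2⟩ := win_id hI h
  have ht1 : 0 < t - 1 := by linarith [ht.1]
  have hp0 : 0 < p := by linarith [hp.1]
  have hv0 : 0 < v := by linarith [hv.1]
  have hC0 : 0 < C := by linarith
  have hS0 : 0 < S := by linarith
  refine ⟨t - 1, by linarith [ht.1], ?_⟩
  have e1 : v * (C * t - (I - 1)) = (I - 1) * C * p := by linear_combination -h1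
  have e3 : v * (C * t - (I - 1)) ≤ (I - 1) * C * S := by
    rw [e1]; exact mul_le_mul_of_nonneg_left hp.2 (mul_nonneg (by linarith) hC0.le)
  have e2 : 0 ≤ C * t - (I - 1) := by nlinarith
  have e4 : (t - 1) * S + C ^ 2 * I ≤ v * (t - 1) * S := by
    have h5 : (t - 1) * (v - 1) * p ≤ (t - 1) * (v - 1) * S :=
      mul_le_mul_of_nonneg_left hp.2 (mul_nonneg ht1.le (by linarith [hv.1]))
    have h6 : C ^ 2 * I ≤ C ^ 2 * r := mul_le_mul_of_nonneg_left hr.1 (by positivity)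
    nlinarith
  calc ((t - 1) * S + C ^ 2 * I) * (C * (t - 1) + (C + 1 - I))
      = ((t - 1) * S + C ^ 2 * I) * (C * t - (I - 1)) := by ring
    _ ≤ (v * (t - 1) * S) * (C * t - (I - 1)) := mul_le_mul_of_nonneg_right e4 e2
    _ = (v * (C * t - (I - 1))) * ((t - 1) * S) := by ring
    _ ≤ ((I - 1) * C * S) * ((t - 1) * S) :=
        mul_le_mul_of_nonneg_right e3 (mul_nonneg ht1.le hS0.le)
    _ = C * S ^ 2 * (I - 1) * (t - 1) := by ring

lemma one_step {C I S e : ℝ} (hC : 1 < C) (hI : 1 < I) (h : Win C I S e) :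
    (e - 1) * I ≤ C * S ∧ C * I ≤ (e - 1) * S := by
  obtain ⟨r, q, p, v, t, b, hr, hq, hp, hv, ht, hb, h1, h2, h3, h4⟩ := h
  have hb0 : 0 < b := by linarith [hb.1]
  have ht0 : 0 < t := by linarith [ht.1]
  have hC0 : 0 < C := by linarith
  have he : 0 < e - 1 := by
    have : 0 < (e - 1) * b := by rw [h4]; positivity
    exact (pos_iff_pos_of_mul_pos this).2 hb0
  constructor
  · calc (e - 1) * I ≤ (e - 1) * b := mul_le_mul_of_nonneg_left hb.1 he.le
      _ = C * t := h4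
      _ ≤ C * S := mul_le_mul_of_nonneg_left ht.2 hC0.le
  · calc C * I ≤ C * t := mul_le_mul_of_nonneg_left ht.1 hC0.le
      _ = (e - 1) * b := h4.symm
      _ ≤ (e - 1) * S := mul_le_mul_of_nonneg_left hb.2 he.le

end D3fc
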