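import Pool.Agent.D3fc.Core1

namespace D3fc

/-- Case A -/
lemma caseA {C I S τ : ℝ} (hC : 1 < C) (hI : 1 < I) (hI2 : I ≤ 1 + C) (hS : 1 + C ≤ S)
    (hτ : I - 1 ≤ τ)
    (h2 : (τ * S + C ^ 2 * I) * (C * τ + (C + 1 - I)) ≤ C * S ^ 2 * (I - 1) * τ)
    (hA : C * I * (C + 1 - I) ≤ (I - 1) ^ 2 * S) :
    ((I - 1) * S + C ^ 2 * I) * ((C - 1) * I + 1) ≤ C * S ^ 2 * (I - 1) ^ 2 := by
  have hτ0 : 0 < τ := by linarith
  have hi0 : 0 < I - 1 := by linarith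
  have hS0 : 0 < S := by linarith
  have h3 : C * I * (C + 1 - I) ≤ τ * (I - 1) * S := by
    refine hA.trans ?_
    have : (I - 1) * ((I - 1) * S) ≤ τ * ((I - 1) * S) :=
      mul_le_mul_of_nonneg_right hτ (by positivity)
    linarith
  have h4 : 0 ≤ (τ - (I - 1)) * C * (τ * (I - 1) * S - C * I * (C + 1 - I)) :=
    mul_nonneg (mul_nonneg (by linarith) (by linarith)) (by linarith)
  have h5 := mul_le_mul_of_nonneg_left h2 hi0.le
  have h6 : τ * (((I - 1) * S + C ^ 2 * I) * ((C - 1) * I + 1))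
      ≤ τ * (C * S ^ 2 * (I - 1) ^ 2) := by nlinarith
  exact le_of_mul_le_mul_left h6 hτ0

/-- the symmetric combination -/
lemma star {C I S : ℝ} (hIS : I < S)
    (h1 : C * I ^ 2 * (S - 1) ^ 2 ≤ ((S - 1) * I + C ^ 2 * S) * ((C - 1) * S + 1))
    (h2 : ((I - 1) * S + C ^ 2 * I) * ((C - 1) * I + 1) ≤ C * S ^ 2 * (I - 1) ^ 2) :
    (C + 1) * (I * S) ≤ (C ^ 3 - C ^ 2 + C) * (S + I) + 1 + C ^ 2 := by
  have h3 : (S - I) * ((C + 1) * (I * S)) ≤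
      (S - I) * ((C ^ 3 - C ^ 2 + C) * (S + I) + 1 + C ^ 2) := by nlinarith
  exact le_of_mul_le_mul_left h3 (by linarith)

/-- `E2'` in terms of `ε = I S - S - C I` -/
lemma e2_eps {C I S : ℝ}
    (h2 : ((I - 1) * S + C ^ 2 * I) * ((C - 1) * I + 1) ≤ C * S ^ 2 * (I - 1) ^ 2) :
    C * I * (C + 1 - I) ≤ C * (I * S - S - C * I) ^ 2 +
      (I * S - S - C * I) * ((2 * C ^ 2 - C + 1) * I - 1) := by
  nlinarith

lemma e1_eta {C I S : ℝ}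
    (h1 : C * I ^ 2 * (S - 1) ^ 2 ≤ ((S - 1) * I + C ^ 2 * S) * ((C - 1) * S + 1)) :
    C * S * (S - 1 - C) + C * (C * S + I - I * S) ^ 2 ≤
      (C * S + I - I * S) * ((2 * C ^ 2 - C + 1) * S - 1) := by
  nlinarith

end D3fc
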