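import Pool.Agent.D3fc.Core2

set_option maxHeartbeats 4000000

namespace D3fc

lemma psi_mono {C a L n n0 : ℝ} (hn : n ≤ n0) (h : C * (n0 + n) ≤ a * L) :
    n * a * L - C * n ^ 2 ≤ n0 * a * L - C * n0 ^ 2 := by
  have := mul_nonneg (sub_nonneg.2 hn) (sub_nonneg.2 h)
  nlinarith

/-- `E1` is contradictory if `ε ≥ e0` and the polynomial inequality `hpos` holds -/
lemma e1_contra {C I S a e0 : ℝ} (hC : 1 < C) (ha : 0 < a) (hS : S = a + C)
    (h1 : C * I ^ 2 * (S - 1) ^ 2 ≤ ((S - 1) * I + C ^ 2 * S) * ((C - 1) * S + 1))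
    (he0 : 0 ≤ e0) (he : e0 ≤ I * S - S - C * I)
    (hpos : 0 < C * (a + C) * (a - 1) * a ^ 2 -
      (((C - 1) * ((a + C - 1) * a - C - e0) - e0 * a) * a *
        ((2 * C ^ 2 - C + 1) * (a + C) - 1)
        - C * ((C - 1) * ((a + C - 1) * a - C - e0) - e0 * a) ^ 2)) : False := by
  have h2 := e1_eta h1
  obtain ⟨ε, hε⟩ : ∃ ε, ε = I * S - S - C * I := ⟨_, rfl⟩
  obtain ⟨η, hη⟩ : ∃ η, η = C * S + I - I * S := ⟨_, rfl⟩
  rw [← hε] at he
  rw [← hη] at h2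
  have hai : a * (I - 1) = C + ε := by rw [hε, hS]; ring
  obtain ⟨n0, hn0⟩ : ∃ n0, n0 = ((C - 1) * ((a + C - 1) * a - C - e0) - e0 * a) := ⟨_, rfl⟩
  rw [← hn0] at hpos
  obtain ⟨n, hnn⟩ : ∃ n, n = a * η := ⟨_, rfl⟩
  have hn : n = (C - 1) * ((S - 1) * a - C - ε) - ε * a := by
    have h3 : η = (C - 1) * (S - I) - ε := by rw [hε, hη]; ring
    have h4 : (S - I) * a = (S - 1) * a - C - ε := by
      linear_combination -hai
    rw [hnn, h3, ← h4]; ring
  have hε0 : 0 ≤ ε := he0.trans he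
  have hle : n ≤ n0 := by
    have h5 : 0 ≤ (ε - e0) * ((C - 1) + a) := mul_nonneg (by linarith) (by linarith)
    have h6 : n0 - n = (ε - e0) * ((C - 1) + a) := by rw [hn, hn0, hS]; ring
    linarith
  obtain ⟨L, hL⟩ : ∃ L, L = (2 * C ^ 2 - C + 1) * (a + C) - 1 := ⟨_, rfl⟩
  have hn0le : n0 ≤ (C - 1) * (a + C - 1) * a := by
    have h5 : 0 ≤ (C - 1) * (C + e0) := mul_nonneg (by linarith) (by linarith)
    have h6 : 0 ≤ e0 * a := mul_nonneg he0 ha.le
    have h7 : (C - 1) * (a + C - 1) * a - n0 = (C - 1) * (C + e0) + e0 * a := by rw [hn0]; ring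
    linarith
  have h8 : C * (n0 + n) ≤ a * L := by
    have h9 : C * (n0 + n) ≤ C * (2 * ((C - 1) * (a + C - 1) * a)) :=
      mul_le_mul_of_nonneg_left (by linarith) (by linarith)
    have h10 : 0 ≤ a * ((C + 1) * (a + C) - 1 + 2 * C * (C - 1)) := by
      apply mul_nonneg ha.le
      have : 0 ≤ C * (C - 1) := mul_nonneg (by linarith) (by linarith)
      nlinarith
    have h11 : a * L - C * (2 * ((C - 1) * (a + C - 1) * a))
        = a * ((C + 1) * (a + C) - 1 + 2 * C * (C - 1)) := by rw [hL]; ring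
    linarith
  have h12 := psi_mono hle h8
  have h13 : C * (a + C) * (a - 1) * a ^ 2 ≤ n * a * L - C * n ^ 2 := by
    have h14 : (C * S * (S - 1 - C) + C * η ^ 2) * a ^ 2
        ≤ (η * ((2 * C ^ 2 - C + 1) * S - 1)) * a ^ 2 :=
      mul_le_mul_of_nonneg_right h2 (by positivity)
    have h15 : (C * S * (S - 1 - C) + C * η ^ 2) * a ^ 2
        = C * (a + C) * (a - 1) * a ^ 2 + C * n ^ 2 := by rw [hS, hnn]; ring
    have h16 : (η * ((2 * C ^ 2 - C + 1) * S - 1)) * a ^ 2 = n * a * L := by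
      rw [hS, hnn, hL]; ring
    rw [h15, h16] at h14
    linarith
  rw [← hL] at hpos
  linarith

/-- free-`τ` form of `E2` -/
lemma e2_free {C I S a τ : ℝ} (hC : 1 < C) (hS0 : 0 < S) (ha : 0 < a) (hS : S = a + C)
    (h2 : (τ * S + C ^ 2 * I) * (C * τ + (C + 1 - I)) ≤ C * S ^ 2 * (I - 1) * τ) {ε : ℝ}
    (hε : ε = I * S - S - C * I) :
    4 * C ^ 3 * (a + C) * (a + C + ε) * (C * a - C - ε) ≤
    (ε * a * (C * (a + C) + 1 + C ^ 2) + C * (C - 1) * (a + C) * a + C * (a + C + ε)) ^ 2 := by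
  have hai : a * I = a + C + ε := by rw [hε, hS]; ring
  obtain ⟨W, hW⟩ : ∃ W, W = C * S ^ 2 * (I - 1) - (C + 1 - I) * S - C ^ 3 * I := ⟨_, rfl⟩
  have h3 : 0 ≤ -(C * S) * τ ^ 2 + W * τ - C ^ 2 * I * (C + 1 - I) := by
    rw [hW]; nlinarith
  have h4 : 4 * (C * S) * (C ^ 2 * I * (C + 1 - I)) ≤ W ^ 2 := by
    have h5 : 0 < C * S := by positivity
    nlinarith [mul_nonneg h5.le h3, sq_nonneg (2 * (C * S) * τ - W)]
  have h6 := mul_le_mul_of_nonneg_left h4 (show (0:ℝ) ≤ a ^ 2 by positivity)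
  have h7 : a * W = ε * a * (C * (a + C) + 1 + C ^ 2) + C * (C - 1) * (a + C) * a
      + C * (a + C + ε) := by
    rw [hW, ← hai, hε, hS]; ring
  have h8 : a ^ 2 * W ^ 2 = (ε * a * (C * (a + C) + 1 + C ^ 2) + C * (C - 1) * (a + C) * a
      + C * (a + C + ε)) ^ 2 := by rw [← h7]; ring
  have h9 : a ^ 2 * (4 * (C * S) * (C ^ 2 * I * (C + 1 - I)))
      = 4 * C ^ 3 * (a + C) * (a + C + ε) * (C * a - C - ε) := by
    have h10 : C * a - C - ε = a * (C + 1 - I) := by linear_combination hai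
    rw [h10, ← hai, hS]; ring
  rw [h8, h9] at h6
  exact h6

/-- `E2` in case B -/
lemma e2_B {C I S a τ : ℝ} (hC : 1 < C) (hI : 1 < I) (ha : 0 < a) (hS : S = a + C)
    (hτ : I - 1 ≤ τ)
    (h2 : (τ * S + C ^ 2 * I) * (C * τ + (C + 1 - I)) ≤ C * S ^ 2 * (I - 1) * τ)
    (hB : (I - 1) ^ 2 * S < C * I * (C + 1 - I)) {ε : ℝ}
    (hε : ε = I * S - S - C * I) :
    C * (a + C) * a + (a + C + ε) * (2 * C ^ 2 - C + C ^ 3 - C ^ 2 * (a + C))
      ≤ ε * a * (C * (a + C) - 2 * C + 1) := by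
  have hai : a * I = a + C + ε := by rw [hε, hS]; ring
  have hτ0 : 0 < τ := by linarith
  have hS0 : 0 < S := by linarith
  have h3 : τ * (2 * C * S * (I - 1) + S * (C + 1 - I) + C ^ 3 * I) ≤
      τ * (C * S ^ 2 * (I - 1)) := by
    have h4 : C * ((I - 1) ^ 2 * S) ≤ C * (C * I * (C + 1 - I)) :=
      mul_le_mul_of_nonneg_left hB.le (by linarith)
    have h5 : 0 ≤ C * S * (τ - (I - 1)) ^ 2 := by positivity
    nlinarith
  have h6 := le_of_mul_le_mul_left h3 hτ0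
  have h7 := mul_le_mul_of_nonneg_left h6 ha.le
  have h8 : a * (2 * C * S * (I - 1) + S * (C + 1 - I) + C ^ 3 * I)
      - a * (C * S ^ 2 * (I - 1)) = C * (a + C) * a
        + (a + C + ε) * (2 * C ^ 2 - C + C ^ 3 - C ^ 2 * (a + C))
        - ε * a * (C * (a + C) - 2 * C + 1) := by
    rw [hε, hS]; ring
  linarith

/-- in case B, `a ≥ 2` -/
lemma a_ge_two {C I S a : ℝ} (hC : 1 < C) (hI : 1 < I) (ha : 0 < a) (hS : S = a + C)
    (hB : (I - 1) ^ 2 * S < C * I * (C + 1 - I)) {ε : ℝ}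
    (hε : ε = I * S - S - C * I) (hε0 : 0 ≤ ε) : 2 ≤ a := by
  have hai : a * I = a + C + ε := by rw [hε, hS]; ring
  have hS0 : 0 < S := by linarith
  by_contra hcon
  push Not at hcon
  have h1 : a ^ 2 * ((I - 1) ^ 2 * S) < a ^ 2 * (C * I * (C + 1 - I)) :=
    mul_lt_mul_of_pos_left hB (by positivity)
  have h2 : a ^ 2 * ((I - 1) ^ 2 * S) = (C + ε) ^ 2 * (a + C) := by
    have h3 : a * (I - 1) = C + ε := by linear_combination hai
    have h4 : a ^ 2 * ((I - 1) ^ 2 * S) = (a * (I - 1)) ^ 2 * S := by ring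
    rw [h4, h3, hS]
  have h5 : a ^ 2 * (C * I * (C + 1 - I)) = C * (a + C + ε) * (C * a - C - ε) := by
    have h10 : C * a - C - ε = a * (C + 1 - I) := by linear_combination hai
    rw [h10, ← hai]; ring
  rw [h2, h5] at h1
  have hC0 : 0 < C := by linarith
  have h6 : C * a - C - ε ≤ C - ε := by nlinarith
  have h7 : C * (a + C + ε) * (C * a - C - ε) ≤ C * (a + C + ε) * (C - ε) :=
    mul_le_mul_of_nonneg_left h6 (by positivity)
  have h8 : C * (a + C + ε) * (C - ε) ≤ (C + ε) ^ 2 * (a + C) := by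
    nlinarith [mul_nonneg hε0 ha.le, mul_nonneg hε0 hC0.le, sq_nonneg ε,
      mul_nonneg (mul_nonneg hε0 ha.le) hC0.le, mul_nonneg (sq_nonneg ε) ha.le,
      mul_nonneg (sq_nonneg ε) hC0.le, mul_nonneg (mul_nonneg hε0 hC0.le) hC0.le]
  linarith

end D3fc
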