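import Pool.Agent.D3fc.Core1
import Pool.Agent.D3fc.Bdd

namespace D3fc

open Filter Topology

lemma ultra_limsup {u : ℕ → ℝ} {m M : ℝ} (hm : ∀ n, m ≤ u n) (hM : ∀ n, u n ≤ M) :
    ∃ U : Ultrafilter ℕ, (U : Filter ℕ) ≤ atTop ∧ Tendsto u U (𝓝 (limsup u atTop)) := by
  have hbu : IsBoundedUnder (· ≤ ·) atTop u := isBoundedUnder_of ⟨M, hM⟩
  have hbl : IsBoundedUnder (· ≥ ·) atTop u := isBoundedUnder_of ⟨m, hm⟩
  have key : MapClusterPt (limsup u atTop) atTop u := by
    rw [mapClusterPt_iff_frequently]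
    intro s hs
    obtain ⟨ε, hε, hball⟩ := Metric.mem_nhds_iff.1 hs
    have h1 : ∃ᶠ n in atTop, limsup u atTop - ε < u n :=
      frequently_lt_of_lt_limsup hbl.isCoboundedUnder_le (by linarith)
    have h2 : ∀ᶠ n in atTop, u n < limsup u atTop + ε :=
      eventually_lt_of_limsup_lt (by linarith) hbu
    refine (h1.and_eventually h2).mono ?_
    rintro n ⟨h3, h4⟩
    apply hball
    rw [Metric.mem_ball, Real.dist_eq, abs_lt]
    constructor <;> linarith
  obtain ⟨U, hU, hUt⟩ := mapClusterPt_iff_ultrafilter.1 key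
  exact ⟨U, hU, hUt⟩

lemma ultra_liminf {u : ℕ → ℝ} {m M : ℝ} (hm : ∀ n, m ≤ u n) (hM : ∀ n, u n ≤ M) :
    ∃ U : Ultrafilter ℕ, (U : Filter ℕ) ≤ atTop ∧ Tendsto u U (𝓝 (liminf u atTop)) := by
  have hbu : IsBoundedUnder (· ≤ ·) atTop u := isBoundedUnder_of ⟨M, hM⟩
  have hbl : IsBoundedUnder (· ≥ ·) atTop u := isBoundedUnder_of ⟨m, hm⟩
  have key : MapClusterPt (liminf u atTop) atTop u := by
    rw [mapClusterPt_iff_frequently]
    intro s hs
    obtain ⟨ε, hε, hball⟩ := Metric.mem_nhds_iff.1 hs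
    have h1 : ∃ᶠ n in atTop, u n < liminf u atTop + ε :=
      frequently_lt_of_liminf_lt hbu.isCoboundedUnder_ge (by linarith)
    have h2 : ∀ᶠ n in atTop, liminf u atTop - ε < u n :=
      eventually_lt_of_lt_liminf (by linarith) hbl
    refine (h1.and_eventually h2).mono ?_
    rintro n ⟨h3, h4⟩
    apply hball
    rw [Metric.mem_ball, Real.dist_eq, abs_lt]
    constructor <;> linarith
  obtain ⟨U, hU, hUt⟩ := mapClusterPt_iff_ultrafilter.1 key
  exact ⟨U, hU, hUt⟩

lemma shift_lim {y : ℕ → ℝ} {m M I S : ℝ} (hm : ∀ n, m ≤ y n) (hM : ∀ n, y n ≤ M)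
    (hlow : ∀ ε > 0, ∀ᶠ n in atTop, I - ε ≤ y n) (hup : ∀ ε > 0, ∀ᶠ n in atTop, y n ≤ S + ε)
    (U : Ultrafilter ℕ) (hU : (U : Filter ℕ) ≤ atTop) (k : ℕ) :
    ∃ w ∈ Set.Icc I S, Tendsto (fun n => y (n + k)) U (𝓝 w) := by
  have hmem : Set.Icc m M ∈ U.map (fun n => y (n + k)) := by
    rw [Ultrafilter.mem_map]
    exact Filter.univ_mem' fun n => ⟨hm _, hM _⟩
  obtain ⟨w, hw, hwt⟩ := (isCompact_Icc (a := m) (b := M)).ultrafilter_le_nhds
    (U.map (fun n => y (n + k))) (by rwa [Filter.le_principal_iff])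
  have ht : Tendsto (fun n => y (n + k)) U (𝓝 w) := hwt
  refine ⟨w, ⟨?_, ?_⟩, ht⟩
  · apply le_of_forall_pos_le_add
    intro ε hε
    have h1 : ∀ᶠ n in (U : Filter ℕ), I - ε ≤ y (n + k) :=
      hU ((tendsto_add_atTop_nat k).eventually (hlow ε hε))
    have := ge_of_tendsto ht h1
    linarith
  · apply le_of_forall_pos_le_add
    intro ε hε
    have h1 : ∀ᶠ n in (U : Filter ℕ), y (n + k) ≤ S + ε :=
      hU ((tendsto_add_atTop_nat k).eventually (hup ε hε))
    exact le_of_tendsto ht h1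

lemma win_of_ultra {C : ℝ} {y : ℕ → ℝ} {m M I S e : ℝ} (hm : ∀ n, m ≤ y n) (hM : ∀ n, y n ≤ M)
    (hlow : ∀ ε > 0, ∀ᶠ n in atTop, I - ε ≤ y n) (hup : ∀ ε > 0, ∀ᶠ n in atTop, y n ≤ S + ε)
    (hr : ∀ n, (y (n + 3) - 1) * y (n + 1) = C * y n)
    (U : Ultrafilter ℕ) (hU : (U : Filter ℕ) ≤ atTop)
    (he : Tendsto (fun n => y (n + 7)) U (𝓝 e)) : Win C I S e := by
  obtain ⟨r, hr', tr⟩ := shift_lim hm hM hlow hup U hU 0
  obtain ⟨q, hq', tq⟩ := shift_lim hm hM hlow hup U hU 1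
  obtain ⟨p, hp', tp⟩ := shift_lim hm hM hlow hup U hU 2
  obtain ⟨v, hv', tv⟩ := shift_lim hm hM hlow hup U hU 3
  obtain ⟨t, ht', tt⟩ := shift_lim hm hM hlow hup U hU 4
  obtain ⟨b, hb', tb⟩ := shift_lim hm hM hlow hup U hU 5
  refine ⟨r, q, p, v, t, b, hr', hq', hp', hv', ht', hb', ?_, ?_, ?_, ?_⟩
  · have h1 := (tv.sub_const 1).mul tq
    have h2 := tr.const_mul C
    exact tendsto_nhds_unique (h1.congr fun n => hr n) h2
  · have h1 := (tt.sub_const 1).mul tp
    have h2 := tq.const_mul C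
    exact tendsto_nhds_unique (h1.congr fun n => hr (n + 1)) h2
  · have h1 := (tb.sub_const 1).mul tv
    have h2 := tp.const_mul C
    exact tendsto_nhds_unique (h1.congr fun n => hr (n + 2)) h2
  · have h1 := (he.sub_const 1).mul tb
    have h2 := tt.const_mul C
    exact tendsto_nhds_unique (h1.congr fun n => hr (n + 4)) h2

/-- assembly: a core lemma about windows gives global attractivity -/
theorem converge {C : ℝ} (hC1 : 1 < C) (hC2 : C ≤ 3/2)
    (core : ∀ I S : ℝ, 1 < I → I ≤ 1 + C → 1 + C ≤ S → Win C I S S → Win C I S I →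
      I = 1 + C ∧ S = 1 + C)
    {y : ℕ → ℝ} (h1 : ∀ n, 1 < y n)
    (hr : ∀ n, (y (n + 3) - 1) * y (n + 1) = C * y n) : Tendsto y atTop (𝓝 (1 + C)) := by
  obtain ⟨M, hM⟩ := bounded hC1 hC2 h1 hr
  have hm : ∀ n, (1:ℝ) ≤ y n := fun n => (h1 n).le
  have hbu : IsBoundedUnder (· ≤ ·) atTop y := isBoundedUnder_of ⟨M, hM⟩
  have hbl : IsBoundedUnder (· ≥ ·) atTop y := isBoundedUnder_of ⟨1, hm⟩
  set S := limsup y atTop with hS
  set I := liminf y atTop with hI
  have hup : ∀ ε > 0, ∀ᶠ n in atTop, y n ≤ S + ε := fun ε hε =>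
    (eventually_lt_of_limsup_lt (show limsup y atTop < S + ε by linarith) hbu).mono
      fun n hn => hn.le
  have hlow : ∀ ε > 0, ∀ᶠ n in atTop, I - ε ≤ y n := fun ε hε =>
    (eventually_lt_of_lt_liminf (show I - ε < liminf y atTop by linarith) hbl).mono
      fun n hn => hn.le
  have hIS : I ≤ S := liminf_le_limsup hbu hbl
  have hI1 : 1 ≤ I := le_liminf_of_le hbu.isCoboundedUnder_ge (Eventually.of_forall hm)
  -- windows
  obtain ⟨U, hU, hUt⟩ := ultra_limsup (u := fun n => y (n + 7)) (m := 1) (M := M)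
    (fun n => hm _) (fun n => hM _)
  obtain ⟨V, hV, hVt⟩ := ultra_liminf (u := fun n => y (n + 7)) (m := 1) (M := M)
    (fun n => hm _) (fun n => hM _)
  rw [limsup_nat_add y 7] at hUt
  rw [liminf_nat_add y 7] at hVt
  have wS : Win C I S S := win_of_ultra hm hM hlow hup hr U hU hUt
  have wI : Win C I S I := win_of_ultra hm hM hlow hup hr V hV hVt
  have hS0 : 0 < S := by linarith
  have hC0 : 0 < C := by linarith
  -- I > 1
  have hI1' : 1 < I := by
    obtain ⟨r, q, p, v, t, b, _, _, _, _, ht, hb, _, _, _, h4⟩ := wI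
    have hb0 : 0 < b := by linarith [hb.1]
    have ht0 : 0 < t := by linarith [ht.1]
    have : 0 < (I - 1) * b := by rw [h4]; positivity
    have := (pos_iff_pos_of_mul_pos this).2 hb0
    linarith
  obtain ⟨s1, s2⟩ := one_step hC1 hI1' wS
  obtain ⟨i1, i2⟩ := one_step hC1 hI1' wI
  have hSC : 1 + C ≤ S := by
    by_contra hcon
    push Not at hcon
    -- C I ≤ (I-1) S
    nlinarith
  have hIC : I ≤ 1 + C := by
    by_contra hcon
    push Not at hcon
    nlinarith
  obtain ⟨h2, h3⟩ := core I S hI1' hIC hSC wS wI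
  refine tendsto_of_le_liminf_of_limsup_le (a := 1 + C) ?_ ?_ hbu hbl
  · rw [← hI, h2]
  · rw [← hS, h3]

/-- the same for the original equation -/
theorem attract {C : ℝ} (hC1 : 1 < C) (hC2 : C ≤ 3/2)
    (core : ∀ I S : ℝ, 1 < I → I ≤ 1 + C → 1 + C ≤ S → Win C I S S → Win C I S I →
      I = 1 + C ∧ S = 1 + C)
    {x : ℕ → ℝ} (h0 : 0 < x 0) (h1 : 0 < x 1) (h2 : 0 < x 2)
    (hrec : ∀ n, x (n + 3) = x n / (C * x (n + 1) + x n)) :
    Tendsto x atTop (𝓝 (1 / (C + 1))) := by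
  have hC0 : 0 < C := by linarith
  have hpos : ∀ n, 0 < x n := by
    intro n
    induction n using Nat.strong_induction_on with
    | _ n ih =>
      match n, ih with
      | 0, _ => exact h0
      | 1, _ => exact h1
      | 2, _ => exact h2
      | (k + 3), ih =>
        rw [hrec k]
        have := ih k (by omega)
        have := ih (k + 1) (by omega)
        positivity
  -- y n = 1 / x (n+3)
  have hy : ∀ n, (1 / x (n + 3) - 1) = C * x (n + 1) / x n := by
    intro n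
    have a := hpos n
    have b := hpos (n + 1)
    rw [hrec n]
    field_simp
    ring
  have hy1 : ∀ n, 1 < 1 / x (n + 3) := by
    intro n
    have : 0 < C * x (n + 1) / x n := by
      have a := hpos n
      have b := hpos (n + 1)
      positivity
    rw [← hy n] at this
    linarith
  have hrr : ∀ n, (1 / x (n + 3 + 3) - 1) * (1 / x (n + 1 + 3)) = C * (1 / x (n + 3)) := by
    intro n
    rw [hy (n + 3)]
    have a := hpos (n + 3)
    have b := hpos (n + 4)
    have e1 : n + 1 + 3 = n + 4 := by omega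
    have e2 : n + 3 + 1 = n + 4 := by omega
    rw [e1, e2]
    field_simp
  have hconv := converge hC1 hC2 core (y := fun n => 1 / x (n + 3)) hy1 hrr
  have h3 : Tendsto (fun n => x (n + 3)) atTop (𝓝 (1 / (C + 1))) := by
    have h4 := hconv.inv₀ (by linarith : (1:ℝ) + C ≠ 0)
    have h5 : (1 + C)⁻¹ = 1 / (C + 1) := by rw [one_div, add_comm]
    rw [h5] at h4
    refine h4.congr fun n => ?_
    rw [one_div, inv_inv]
  exact (tendsto_add_atTop_iff_nat 3).1 h3

end D3fc
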