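import Mathlib

set_option maxHeartbeats 4000000
set_option maxRecDepth 4000

namespace D3fc

lemma claim1_0 {C : ℝ} (l_C : 1 ≤ C) (m_C : C ≤ (7/5)) :
    0 ≤ (449/100) + (113/16) * C + (109/8) * C ^ 2 + (41/16) * C ^ 3 + (-(15/2)) * C ^ 4 + (-3) * C ^ 5 := by
  have hu : 0 ≤ (C - 1) := sub_nonneg.2 l_C
  have hw : 0 ≤ ((7/5) - C) := sub_nonneg.2 m_C
  have t0 : 0 ≤ (((7/5) - C) ^ 5) * ((53875/32)) := mul_nonneg (by positivity) (by norm_num)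
  have t1 : 0 ≤ ((C - 1) ^ 1 * ((7/5) - C) ^ 4) * ((265625/32)) := mul_nonneg (by positivity) (by norm_num)
  have t2 : 0 ≤ ((C - 1) ^ 2 * ((7/5) - C) ^ 3) * ((1987625/128)) := mul_nonneg (by positivity) (by norm_num)
  have t3 : 0 ≤ ((C - 1) ^ 3 * ((7/5) - C) ^ 2) * ((1696925/128)) := mul_nonneg (by positivity) (by norm_num)
  have t4 : 0 ≤ ((C - 1) ^ 4 * ((7/5) - C) ^ 1) * ((596275/128)) := mul_nonneg (by positivity) (by norm_num)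
  have t5 : 0 ≤ ((C - 1) ^ 5) * ((39591/128)) := mul_nonneg (by positivity) (by norm_num)
  have h : (449/100) + (113/16) * C + (109/8) * C ^ 2 + (41/16) * C ^ 3 + (-(15/2)) * C ^ 4 + (-3) * C ^ 5 = (((7/5) - C) ^ 5) * ((53875/32)) + ((C - 1) ^ 1 * ((7/5) - C) ^ 4) * ((265625/32)) + ((C - 1) ^ 2 * ((7/5) - C) ^ 3) * ((1987625/128)) + ((C - 1) ^ 3 * ((7/5) - C) ^ 2) * ((1696925/128)) + ((C - 1) ^ 4 * ((7/5) - C) ^ 1) * ((596275/128)) + ((C - 1) ^ 5) * ((39591/128)) := by ring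
  rw [h]
  exact (add_nonneg (add_nonneg (add_nonneg (add_nonneg (add_nonneg t0 t1) t2) t3) t4) t5)

lemma claim1_1 {C : ℝ} (l_C : 1 ≤ C) (m_C : C ≤ (7/5)) :
    0 ≤ (53/4) + (121/8) * C + (245/8) * C ^ 2 + (-(11/4)) * C ^ 3 + (-17) * C ^ 4 + (-4) * C ^ 5 := by
  have hu : 0 ≤ (C - 1) := sub_nonneg.2 l_C
  have hw : 0 ≤ ((7/5) - C) := sub_nonneg.2 m_C
  have t0 : 0 ≤ (((7/5) - C) ^ 5) * ((440625/128)) := mul_nonneg (by positivity) (by norm_num)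
  have t1 : 0 ≤ ((C - 1) ^ 1 * ((7/5) - C) ^ 4) * ((1051875/64)) := mul_nonneg (by positivity) (by norm_num)
  have t2 : 0 ≤ ((C - 1) ^ 2 * ((7/5) - C) ^ 3) * ((942375/32)) := mul_nonneg (by positivity) (by norm_num)
  have t3 : 0 ≤ ((C - 1) ^ 3 * ((7/5) - C) ^ 2) * ((1501825/64)) := mul_nonneg (by positivity) (by norm_num)
  have t4 : 0 ≤ ((C - 1) ^ 4 * ((7/5) - C) ^ 1) * ((898835/128)) := mul_nonneg (by positivity) (by norm_num)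
  have t5 : 0 ≤ ((C - 1) ^ 5) * ((131/16)) := mul_nonneg (by positivity) (by norm_num)
  have h : (53/4) + (121/8) * C + (245/8) * C ^ 2 + (-(11/4)) * C ^ 3 + (-17) * C ^ 4 + (-4) * C ^ 5 = (((7/5) - C) ^ 5) * ((440625/128)) + ((C - 1) ^ 1 * ((7/5) - C) ^ 4) * ((1051875/64)) + ((C - 1) ^ 2 * ((7/5) - C) ^ 3) * ((942375/32)) + ((C - 1) ^ 3 * ((7/5) - C) ^ 2) * ((1501825/64)) + ((C - 1) ^ 4 * ((7/5) - C) ^ 1) * ((898835/128)) + ((C - 1) ^ 5) * ((131/16)) := by ring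
  rw [h]
  exact (add_nonneg (add_nonneg (add_nonneg (add_nonneg (add_nonneg t0 t1) t2) t3) t4) t5)

lemma claim1_2 {C : ℝ} (l_C : 1 ≤ C) (m_C : C ≤ (7/5)) :
    0 ≤ 14 + (165/16) * C + 24 * C ^ 2 + (-10) * C ^ 3 + (-11) * C ^ 4 + (-1) * C ^ 5 := by
  have hu : 0 ≤ (C - 1) := sub_nonneg.2 l_C
  have hw : 0 ≤ ((7/5) - C) := sub_nonneg.2 m_C
  have t0 : 0 ≤ (((7/5) - C) ^ 5) * ((1315625/512)) := mul_nonneg (by positivity) (by norm_num)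
  have t1 : 0 ≤ ((C - 1) ^ 1 * ((7/5) - C) ^ 4) * ((6164375/512)) := mul_nonneg (by positivity) (by norm_num)
  have t2 : 0 ≤ ((C - 1) ^ 2 * ((7/5) - C) ^ 3) * ((5422625/256)) := mul_nonneg (by positivity) (by norm_num)
  have t3 : 0 ≤ ((C - 1) ^ 3 * ((7/5) - C) ^ 2) * ((4250475/256)) := mul_nonneg (by positivity) (by norm_num)
  have t4 : 0 ≤ ((C - 1) ^ 4 * ((7/5) - C) ^ 1) * ((2525045/512)) := mul_nonneg (by positivity) (by norm_num)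
  have t5 : 0 ≤ ((C - 1) ^ 5) * ((20083/512)) := mul_nonneg (by positivity) (by norm_num)
  have h : 14 + (165/16) * C + 24 * C ^ 2 + (-10) * C ^ 3 + (-11) * C ^ 4 + (-1) * C ^ 5 = (((7/5) - C) ^ 5) * ((1315625/512)) + ((C - 1) ^ 1 * ((7/5) - C) ^ 4) * ((6164375/512)) + ((C - 1) ^ 2 * ((7/5) - C) ^ 3) * ((5422625/256)) + ((C - 1) ^ 3 * ((7/5) - C) ^ 2) * ((4250475/256)) + ((C - 1) ^ 4 * ((7/5) - C) ^ 1) * ((2525045/512)) + ((C - 1) ^ 5) * ((20083/512)) := by ring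
  rw [h]
  exact (add_nonneg (add_nonneg (add_nonneg (add_nonneg (add_nonneg t0 t1) t2) t3) t4) t5)

lemma claim1_3 {C : ℝ} (l_C : 1 ≤ C) (m_C : C ≤ (7/5)) :
    0 ≤ (25/4) + (9/4) * C + 8 * C ^ 2 + (-6) * C ^ 3 + (-2) * C ^ 4 := by
  have hu : 0 ≤ (C - 1) := sub_nonneg.2 l_C
  have hw : 0 ≤ ((7/5) - C) := sub_nonneg.2 m_C
  have t0 : 0 ≤ (((7/5) - C) ^ 4) * ((10625/32)) := mul_nonneg (by positivity) (by norm_num)
  have t1 : 0 ≤ ((C - 1) ^ 1 * ((7/5) - C) ^ 3) * ((38625/32)) := mul_nonneg (by positivity) (by norm_num)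
  have t2 : 0 ≤ ((C - 1) ^ 2 * ((7/5) - C) ^ 2) * ((47725/32)) := mul_nonneg (by positivity) (by norm_num)
  have t3 : 0 ≤ ((C - 1) ^ 3 * ((7/5) - C) ^ 1) * ((20955/32)) := mul_nonneg (by positivity) (by norm_num)
  have t4 : 0 ≤ ((C - 1) ^ 4) * ((583/16)) := mul_nonneg (by positivity) (by norm_num)
  have h : (25/4) + (9/4) * C + 8 * C ^ 2 + (-6) * C ^ 3 + (-2) * C ^ 4 = (((7/5) - C) ^ 4) * ((10625/32)) + ((C - 1) ^ 1 * ((7/5) - C) ^ 3) * ((38625/32)) + ((C - 1) ^ 2 * ((7/5) - C) ^ 2) * ((47725/32)) + ((C - 1) ^ 3 * ((7/5) - C) ^ 1) * ((20955/32)) + ((C - 1) ^ 4) * ((583/16)) := by ring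
  rw [h]
  exact (add_nonneg (add_nonneg (add_nonneg (add_nonneg t0 t1) t2) t3) t4)

lemma claim1_4 {C : ℝ} (l_C : 1 ≤ C) (m_C : C ≤ (7/5)) :
    0 ≤ 1 + 1 * C ^ 2 + (-1) * C ^ 3 := by
  have hu : 0 ≤ (C - 1) := sub_nonneg.2 l_C
  have hw : 0 ≤ ((7/5) - C) := sub_nonneg.2 m_C
  have t0 : 0 ≤ (((7/5) - C) ^ 3) * ((125/8)) := mul_nonneg (by positivity) (by norm_num)
  have t1 : 0 ≤ ((C - 1) ^ 1 * ((7/5) - C) ^ 2) * ((325/8)) := mul_nonneg (by positivity) (by norm_num)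
  have t2 : 0 ≤ ((C - 1) ^ 2 * ((7/5) - C) ^ 1) * ((235/8)) := mul_nonneg (by positivity) (by norm_num)
  have t3 : 0 ≤ ((C - 1) ^ 3) * ((27/8)) := mul_nonneg (by positivity) (by norm_num)
  have h : 1 + 1 * C ^ 2 + (-1) * C ^ 3 = (((7/5) - C) ^ 3) * ((125/8)) + ((C - 1) ^ 1 * ((7/5) - C) ^ 2) * ((325/8)) + ((C - 1) ^ 2 * ((7/5) - C) ^ 1) * ((235/8)) + ((C - 1) ^ 3) * ((27/8)) := by ring
  rw [h]
  exact (add_nonneg (add_nonneg (add_nonneg t0 t1) t2) t3)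

lemma claim1 {a C : ℝ} (l_a : 2 ≤ a) (l_C : 1 ≤ C) (m_C : C ≤ (7/5)) :
    0 < C * (a + C) * (a - 1) * a ^ 2 - (((C - 1) * ((a + C - 1) * a - C - (1/4)) - (1/4) * a) * a * ((2 * C ^ 2 - C + 1) * (a + C) - 1) - C * ((C - 1) * ((a + C - 1) * a - C - (1/4)) - (1/4) * a) ^ 2) := by
  have hu : 0 ≤ (a - 2) := sub_nonneg.2 l_a
  have t0 : 0 ≤ ((1:ℝ)) * ((449/100) + (113/16) * C + (109/8) * C ^ 2 + (41/16) * C ^ 3 + (-(15/2)) * C ^ 4 + (-3) * C ^ 5) := mul_nonneg (by positivity) (claim1_0 l_C m_C)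
  have t1 : 0 ≤ ((a - 2) ^ 1) * ((53/4) + (121/8) * C + (245/8) * C ^ 2 + (-(11/4)) * C ^ 3 + (-17) * C ^ 4 + (-4) * C ^ 5) := mul_nonneg (by positivity) (claim1_1 l_C m_C)
  have t2 : 0 ≤ ((a - 2) ^ 2) * (14 + (165/16) * C + 24 * C ^ 2 + (-10) * C ^ 3 + (-11) * C ^ 4 + (-1) * C ^ 5) := mul_nonneg (by positivity) (claim1_2 l_C m_C)
  have t3 : 0 ≤ ((a - 2) ^ 3) * ((25/4) + (9/4) * C + 8 * C ^ 2 + (-6) * C ^ 3 + (-2) * C ^ 4) := mul_nonneg (by positivity) (claim1_3 l_C m_C)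
  have t4 : 0 ≤ ((a - 2) ^ 4) * (1 + 1 * C ^ 2 + (-1) * C ^ 3) := mul_nonneg (by positivity) (claim1_4 l_C m_C)
  have h : C * (a + C) * (a - 1) * a ^ 2 - (((C - 1) * ((a + C - 1) * a - C - (1/4)) - (1/4) * a) * a * ((2 * C ^ 2 - C + 1) * (a + C) - 1) - C * ((C - 1) * ((a + C - 1) * a - C - (1/4)) - (1/4) * a) ^ 2) = (1/100) + (((1:ℝ)) * ((449/100) + (113/16) * C + (109/8) * C ^ 2 + (41/16) * C ^ 3 + (-(15/2)) * C ^ 4 + (-3) * C ^ 5) + ((a - 2) ^ 1) * ((53/4) + (121/8) * C + (245/8) * C ^ 2 + (-(11/4)) * C ^ 3 + (-17) * C ^ 4 + (-4) * C ^ 5) + ((a - 2) ^ 2) * (14 + (165/16) * C + 24 * C ^ 2 + (-10) * C ^ 3 + (-11) * C ^ 4 + (-1) * C ^ 5) + ((a - 2) ^ 3) * ((25/4) + (9/4) * C + 8 * C ^ 2 + (-6) * C ^ 3 + (-2) * C ^ 4) + ((a - 2) ^ 4) * (1 + 1 * C ^ 2 + (-1) * C ^ 3)) := by ring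
  rw [h]
  exact add_pos_of_pos_of_nonneg (by norm_num) (add_nonneg (add_nonneg (add_nonneg (add_nonneg t0 t1) t2) t3) t4)

end D3fc
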