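import Mathlib

set_option maxHeartbeats 4000000
set_option maxRecDepth 4000

namespace D3fc

lemma claim2_0_0 {C : ℝ} (l_C : 1 ≤ C) (m_C : C ≤ (7/5)) :
    0 ≤ (-(1600/7890481)) + (-(3370896/7890481)) * C ^ 2 + (8210592/7890481) * C ^ 3 + (6897584/7890481) * C ^ 4 + (1045440/7890481) * C ^ 5 + (-(78400/7890481)) * C ^ 6 := by
  have hu : 0 ≤ (C - 1) := sub_nonneg.2 l_C
  have hw : 0 ≤ ((7/5) - C) := sub_nonneg.2 m_C
  have t0 : 0 ≤ (((7/5) - C) ^ 6) * ((3101250000/7890481)) := mul_nonneg (by positivity) (by norm_num)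
  have t1 : 0 ≤ ((C - 1) ^ 1 * ((7/5) - C) ^ 5) * ((23513468750/7890481)) := mul_nonneg (by positivity) (by norm_num)
  have t2 : 0 ≤ ((C - 1) ^ 2 * ((7/5) - C) ^ 4) * ((73858155625/7890481)) := mul_nonneg (by positivity) (by norm_num)
  have t3 : 0 ≤ ((C - 1) ^ 3 * ((7/5) - C) ^ 3) * ((123021174500/7890481)) := mul_nonneg (by positivity) (by norm_num)
  have t4 : 0 ≤ ((C - 1) ^ 4 * ((7/5) - C) ^ 2) * ((114598957150/7890481)) := mul_nonneg (by positivity) (by norm_num)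
  have t5 : 0 ≤ ((C - 1) ^ 5 * ((7/5) - C) ^ 1) * ((56608607150/7890481)) := mul_nonneg (by positivity) (by norm_num)
  have t6 : 0 ≤ ((C - 1) ^ 6) * ((11584809225/7890481)) := mul_nonneg (by positivity) (by norm_num)
  have h : (-(1600/7890481)) + (-(3370896/7890481)) * C ^ 2 + (8210592/7890481) * C ^ 3 + (6897584/7890481) * C ^ 4 + (1045440/7890481) * C ^ 5 + (-(78400/7890481)) * C ^ 6 = (((7/5) - C) ^ 6) * ((3101250000/7890481)) + ((C - 1) ^ 1 * ((7/5) - C) ^ 5) * ((23513468750/7890481)) + ((C - 1) ^ 2 * ((7/5) - C) ^ 4) * ((73858155625/7890481)) + ((C - 1) ^ 3 * ((7/5) - C) ^ 3) * ((123021174500/7890481)) + ((C - 1) ^ 4 * ((7/5) - C) ^ 2) * ((114598957150/7890481)) + ((C - 1) ^ 5 * ((7/5) - C) ^ 1) * ((56608607150/7890481)) + ((C - 1) ^ 6) * ((11584809225/7890481)) := by ring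
  rw [h]
  exact (add_nonneg (add_nonneg (add_nonneg (add_nonneg (add_nonneg (add_nonneg t0 t1) t2) t3) t4) t5) t6)

lemma claim2_0_1 {C : ℝ} (l_C : 1 ≤ C) (m_C : C ≤ (7/5)) :
    0 ≤ (-(3200/7890481)) + (991440/7890481) * C + (-(4905144/7890481)) * C ^ 2 + (12947176/7890481) * C ^ 3 + (9460048/7890481) * C ^ 4 + (1036480/7890481) * C ^ 5 + (-(156800/7890481)) * C ^ 6 := by
  have hu : 0 ≤ (C - 1) := sub_nonneg.2 l_C
  have hw : 0 ≤ ((7/5) - C) := sub_nonneg.2 m_C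
  have t0 : 0 ≤ (((7/5) - C) ^ 6) * ((18916015625/31561924)) := mul_nonneg (by positivity) (by norm_num)
  have t1 : 0 ≤ ((C - 1) ^ 1 * ((7/5) - C) ^ 5) * ((141661903125/31561924)) := mul_nonneg (by positivity) (by norm_num)
  have t2 : 0 ≤ ((C - 1) ^ 2 * ((7/5) - C) ^ 4) * ((219996318125/15780962)) := mul_nonneg (by positivity) (by norm_num)
  have t3 : 0 ≤ ((C - 1) ^ 3 * ((7/5) - C) ^ 3) * ((362648918375/15780962)) := mul_nonneg (by positivity) (by norm_num)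
  have t4 : 0 ≤ ((C - 1) ^ 4 * ((7/5) - C) ^ 2) * ((669123750825/31561924)) := mul_nonneg (by positivity) (by norm_num)
  have t5 : 0 ≤ ((C - 1) ^ 5 * ((7/5) - C) ^ 1) * ((327512071325/31561924)) := mul_nonneg (by positivity) (by norm_num)
  have t6 : 0 ≤ ((C - 1) ^ 6) * ((16609695325/7890481)) := mul_nonneg (by positivity) (by norm_num)
  have h : (-(3200/7890481)) + (991440/7890481) * C + (-(4905144/7890481)) * C ^ 2 + (12947176/7890481) * C ^ 3 + (9460048/7890481) * C ^ 4 + (1036480/7890481) * C ^ 5 + (-(156800/7890481)) * C ^ 6 = (((7/5) - C) ^ 6) * ((18916015625/31561924)) + ((C - 1) ^ 1 * ((7/5) - C) ^ 5) * ((141661903125/31561924)) + ((C - 1) ^ 2 * ((7/5) - C) ^ 4) * ((219996318125/15780962)) + ((C - 1) ^ 3 * ((7/5) - C) ^ 3) * ((362648918375/15780962)) + ((C - 1) ^ 4 * ((7/5) - C) ^ 2) * ((669123750825/31561924)) + ((C - 1) ^ 5 * ((7/5) - C) ^ 1) * ((327512071325/31561924)) + ((C - 1) ^ 6) * ((16609695325/7890481))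 := by ring
  rw [h]
  exact (add_nonneg (add_nonneg (add_nonneg (add_nonneg (add_nonneg (add_nonneg t0 t1) t2) t3) t4) t5) t6)

lemma claim2_0_2 {C : ℝ} (l_C : 1 ≤ C) (m_C : C ≤ (7/5)) :
    0 ≤ (-(74500/7890481)) + (10260/148877) * C + (-(2513089/7890481)) * C ^ 2 + (3733264/7890481) * C ^ 3 + (2230864/7890481) * C ^ 4 + (-(8960/7890481)) * C ^ 5 + (-(78400/7890481)) * C ^ 6 := by
  have hu : 0 ≤ (C - 1) := sub_nonneg.2 l_C
  have hw : 0 ≤ ((7/5) - C) := sub_nonneg.2 m_C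
  have t0 : 0 ≤ (((7/5) - C) ^ 6) * ((59889984375/504990784)) := mul_nonneg (by positivity) (by norm_num)
  have t1 : 0 ≤ ((C - 1) ^ 1 * ((7/5) - C) ^ 5) * ((226937609375/252495392)) := mul_nonneg (by positivity) (by norm_num)
  have t2 : 0 ≤ ((C - 1) ^ 2 * ((7/5) - C) ^ 4) * ((1423042045625/504990784)) := mul_nonneg (by positivity) (by norm_num)
  have t3 : 0 ≤ ((C - 1) ^ 3 * ((7/5) - C) ^ 3) * ((590553700625/126247696)) := mul_nonneg (by positivity) (by norm_num)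
  have t4 : 0 ≤ ((C - 1) ^ 4 * ((7/5) - C) ^ 2) * ((2189198581225/504990784)) := mul_nonneg (by positivity) (by norm_num)
  have t5 : 0 ≤ ((C - 1) ^ 5 * ((7/5) - C) ^ 1) * ((536904026175/252495392)) := mul_nonneg (by positivity) (by norm_num)
  have t6 : 0 ≤ ((C - 1) ^ 6) * ((217762444775/504990784)) := mul_nonneg (by positivity) (by norm_num)
  have h : (-(74500/7890481)) + (10260/148877) * C + (-(2513089/7890481)) * C ^ 2 + (3733264/7890481) * C ^ 3 + (2230864/7890481) * C ^ 4 + (-(8960/7890481)) * C ^ 5 + (-(78400/7890481)) * C ^ 6 = (((7/5) - C) ^ 6) * ((59889984375/504990784)) + ((C - 1) ^ 1 * ((7/5) - C) ^ 5) * ((226937609375/252495392)) + ((C - 1) ^ 2 * ((7/5) - C) ^ 4) * ((1423042045625/504990784)) + ((C - 1) ^ 3 * ((7/5) - C) ^ 3) * ((590553700625/126247696)) + ((C - 1) ^ 4 * ((7/5) - C) ^ 2) * ((2189198581225/504990784)) + ((C - 1) ^ 5 * ((7/5) - C) ^ 1) * ((536904026175/252495392)) + ((C - 1)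 ^ 6) * ((217762444775/504990784)) := by ring
  rw [h]
  exact (add_nonneg (add_nonneg (add_nonneg (add_nonneg (add_nonneg (add_nonneg t0 t1) t2) t3) t4) t5) t6)

lemma claim2_0 {e C : ℝ} (l_e : 0 ≤ e) (m_e : e ≤ (1/4)) (l_C : 1 ≤ C) (m_C : C ≤ (7/5)) :
    0 ≤ (-(100/7890481)) + (247860/7890481) * C * e + (-(447660/7890481)) * C * e ^ 2 + (-(210681/7890481)) * C ^ 2 + (459162/7890481) * C ^ 2 * e + (-(978841/7890481)) * C ^ 2 * e ^ 2 + (513162/7890481) * C ^ 3 + (-(868502/7890481)) * C ^ 3 * e + (-(1003320/7890481)) * C ^ 3 * e ^ 2 + (431099/7890481) * C ^ 4 + (-(1083780/7890481)) * C ^ 4 * e + (-(331600/7890481)) * C ^ 4 * e ^ 2 + (65340/7890481) * C ^ 5 + (-(263600/7890481)) * C ^ 5 * e + (-(4900/7890481)) * C ^ 6 + (-(72900/7890481)) * e ^ 2 := by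
  have hu : 0 ≤ e := l_e
  have hw : 0 ≤ ((1/4) - e) := sub_nonneg.2 m_e
  have t0 : 0 ≤ (((1/4) - e) ^ 2) * ((-(1600/7890481)) + (-(3370896/7890481)) * C ^ 2 + (8210592/7890481) * C ^ 3 + (6897584/7890481) * C ^ 4 + (1045440/7890481) * C ^ 5 + (-(78400/7890481)) * C ^ 6) := mul_nonneg (by positivity) (claim2_0_0 l_C m_C)
  have t1 : 0 ≤ (e ^ 1 * ((1/4) - e) ^ 1) * ((-(3200/7890481)) + (991440/7890481) * C + (-(4905144/7890481)) * C ^ 2 + (12947176/7890481) * C ^ 3 + (9460048/7890481) * C ^ 4 + (1036480/7890481) * C ^ 5 + (-(156800/7890481)) * C ^ 6) := mul_nonneg (by positivity) (claim2_0_1 l_C m_C)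
  have t2 : 0 ≤ (e ^ 2) * ((-(74500/7890481)) + (10260/148877) * C + (-(2513089/7890481)) * C ^ 2 + (3733264/7890481) * C ^ 3 + (2230864/7890481) * C ^ 4 + (-(8960/7890481)) * C ^ 5 + (-(78400/7890481)) * C ^ 6) := mul_nonneg (by positivity) (claim2_0_2 l_C m_C)
  have h : (-(100/7890481)) + (247860/7890481) * C * e + (-(447660/7890481)) * C * e ^ 2 + (-(210681/7890481)) * C ^ 2 + (459162/7890481) * C ^ 2 * e + (-(978841/7890481)) * C ^ 2 * e ^ 2 + (513162/7890481) * C ^ 3 + (-(868502/7890481)) * C ^ 3 * e + (-(1003320/7890481)) * C ^ 3 * e ^ 2 + (431099/7890481) * C ^ 4 + (-(1083780/7890481)) * C ^ 4 * e + (-(331600/7890481)) * C ^ 4 * e ^ 2 + (65340/7890481) * C ^ 5 + (-(263600/7890481)) * C ^ 5 * e + (-(4900/7890481)) * C ^ 6 + (-(72900/7890481)) * e ^ 2 = (((1/4) - e) ^ 2) * ((-(1600/7890481)) + (-(3370896/7890481)) * C ^ 2 + (8210592/7890481) * C ^ 3 + (6897584/7890481) * C ^ 4 + (1045440/7890481)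 * C ^ 5 + (-(78400/7890481)) * C ^ 6) + (e ^ 1 * ((1/4) - e) ^ 1) * ((-(3200/7890481)) + (991440/7890481) * C + (-(4905144/7890481)) * C ^ 2 + (12947176/7890481) * C ^ 3 + (9460048/7890481) * C ^ 4 + (1036480/7890481) * C ^ 5 + (-(156800/7890481)) * C ^ 6) + (e ^ 2) * ((-(74500/7890481)) + (10260/148877) * C + (-(2513089/7890481)) * C ^ 2 + (3733264/7890481) * C ^ 3 + (2230864/7890481) * C ^ 4 + (-(8960/7890481)) * C ^ 5 + (-(78400/7890481)) * C ^ 6) := by ring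
  rw [h]
  exact (add_nonneg (add_nonneg t0 t1) t2)

lemma claim2_1_0 {C : ℝ} (l_C : 1 ≤ C) (m_C : C ≤ (7/5)) :
    0 ≤ (-(6400/7890481)) + (-(47736000/7890481)) * C ^ 2 + (108809600/7890481) * C ^ 3 + (69674880/7890481) * C ^ 4 + (4402240/7890481) * C ^ 5 + (-(1500800/7890481)) * C ^ 6 := by
  have hu : 0 ≤ (C - 1) := sub_nonneg.2 l_C
  have hw : 0 ≤ ((7/5) - C) := sub_nonneg.2 m_C
  have t0 : 0 ≤ (((7/5) - C) ^ 6) * ((32627812500/7890481)) := mul_nonneg (by positivity) (by norm_num)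
  have t1 : 0 ≤ ((C - 1) ^ 1 * ((7/5) - C) ^ 5) * ((246808156250/7890481)) := mul_nonneg (by positivity) (by norm_num)
  have t2 : 0 ≤ ((C - 1) ^ 2 * ((7/5) - C) ^ 4) * ((772680331250/7890481)) := mul_nonneg (by positivity) (by norm_num)
  have t3 : 0 ≤ ((C - 1) ^ 3 * ((7/5) - C) ^ 3) * ((1281469692500/7890481)) := mul_nonneg (by positivity) (by norm_num)
  have t4 : 0 ≤ ((C - 1) ^ 4 * ((7/5) - C) ^ 2) * ((1187423803000/7890481)) := mul_nonneg (by positivity) (by norm_num)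
  have t5 : 0 ≤ ((C - 1) ^ 5 * ((7/5) - C) ^ 1) * ((582874440850/7890481)) := mul_nonneg (by positivity) (by norm_num)
  have t6 : 0 ≤ ((C - 1) ^ 6) * ((118418842050/7890481)) := mul_nonneg (by positivity) (by norm_num)
  have h : (-(6400/7890481)) + (-(47736000/7890481)) * C ^ 2 + (108809600/7890481) * C ^ 3 + (69674880/7890481) * C ^ 4 + (4402240/7890481) * C ^ 5 + (-(1500800/7890481)) * C ^ 6 = (((7/5) - C) ^ 6) * ((32627812500/7890481)) + ((C - 1) ^ 1 * ((7/5) - C) ^ 5) * ((246808156250/7890481)) + ((C - 1) ^ 2 * ((7/5) - C) ^ 4) * ((772680331250/7890481)) + ((C - 1) ^ 3 * ((7/5) - C) ^ 3) * ((1281469692500/7890481)) + ((C - 1) ^ 4 * ((7/5) - C) ^ 2) * ((1187423803000/7890481)) + ((C - 1) ^ 5 * ((7/5) - C) ^ 1) * ((582874440850/7890481)) + ((C - 1) ^ 6) * ((118418842050/7890481)) := by ring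
  rw [h]
  exact (add_nonneg (add_nonneg (add_nonneg (add_nonneg (add_nonneg (add_nonneg t0 t1) t2) t3) t4) t5) t6)

lemma claim2_1_1 {C : ℝ} (l_C : 1 ≤ C) (m_C : C ≤ (7/5)) :
    0 ≤ (-(12800/7890481)) + (10949040/7890481) * C + (-(69557600/7890481)) * C ^ 2 + (182556240/7890481) * C ^ 3 + (99533040/7890481) * C ^ 4 + (855680/7890481) * C ^ 5 + (-(3001600/7890481)) * C ^ 6 := by
  have hu : 0 ≤ (C - 1) := sub_nonneg.2 l_C
  have hw : 0 ≤ ((7/5) - C) := sub_nonneg.2 m_C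
  have t0 : 0 ≤ (((7/5) - C) ^ 6) * ((216134765625/31561924)) := mul_nonneg (by positivity) (by norm_num)
  have t1 : 0 ≤ ((C - 1) ^ 1 * ((7/5) - C) ^ 5) * ((805416703125/15780962)) := mul_nonneg (by positivity) (by norm_num)
  have t2 : 0 ≤ ((C - 1) ^ 2 * ((7/5) - C) ^ 4) * ((4974464634375/31561924)) := mul_nonneg (by positivity) (by norm_num)
  have t3 : 0 ≤ ((C - 1) ^ 3 * ((7/5) - C) ^ 3) * ((2036323903125/7890481)) := mul_nonneg (by positivity) (by norm_num)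
  have t4 : 0 ≤ ((C - 1) ^ 4 * ((7/5) - C) ^ 2) * ((7456881295375/31561924)) := mul_nonneg (by positivity) (by norm_num)
  have t5 : 0 ≤ ((C - 1) ^ 5 * ((7/5) - C) ^ 1) * ((1809102157025/15780962)) := mul_nonneg (by positivity) (by norm_num)
  have t6 : 0 ≤ ((C - 1) ^ 6) * ((726840631025/31561924)) := mul_nonneg (by positivity) (by norm_num)
  have h : (-(12800/7890481)) + (10949040/7890481) * C + (-(69557600/7890481)) * C ^ 2 + (182556240/7890481) * C ^ 3 + (99533040/7890481) * C ^ 4 + (855680/7890481) * C ^ 5 + (-(3001600/7890481)) * C ^ 6 = (((7/5) - C) ^ 6) * ((216134765625/31561924)) + ((C - 1) ^ 1 * ((7/5) - C) ^ 5) * ((805416703125/15780962)) + ((C - 1) ^ 2 * ((7/5) - C) ^ 4) * ((4974464634375/31561924)) + ((C - 1) ^ 3 * ((7/5) - C) ^ 3) * ((2036323903125/7890481)) + ((C - 1) ^ 4 * ((7/5) - C) ^ 2) * ((7456881295375/31561924)) + ((C - 1) ^ 5 * ((7/5) - C) ^ 1) * ((1809102157025/15780962)) + ((C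 - 1) ^ 6) * ((726840631025/31561924)) := by ring
  rw [h]
  exact (add_nonneg (add_nonneg (add_nonneg (add_nonneg (add_nonneg (add_nonneg t0 t1) t2) t3) t4) t5) t6)

lemma claim2_1_2 {C : ℝ} (l_C : 1 ≤ C) (m_C : C ≤ (7/5)) :
    0 ≤ (-(584200/7890481)) + (127060/148877) * C + (-(31626960/7890481)) * C ^ 2 + (64672920/7890481) * C ^ 3 + (27386960/7890481) * C ^ 4 + (-(3546560/7890481)) * C ^ 5 + (-(1500800/7890481)) * C ^ 6 := by
  have hu : 0 ≤ (C - 1) := sub_nonneg.2 l_C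
  have hw : 0 ≤ ((7/5) - C) := sub_nonneg.2 m_C
  have t0 : 0 ≤ (((7/5) - C) ^ 6) * ((240373203125/126247696)) := mul_nonneg (by positivity) (by norm_num)
  have t1 : 0 ≤ ((C - 1) ^ 1 * ((7/5) - C) ^ 5) * ((446618109375/31561924)) := mul_nonneg (by positivity) (by norm_num)
  have t2 : 0 ≤ ((C - 1) ^ 2 * ((7/5) - C) ^ 4) * ((5494724115625/126247696)) := mul_nonneg (by positivity) (by norm_num)
  have t3 : 0 ≤ ((C - 1) ^ 3 * ((7/5) - C) ^ 3) * ((559301308750/7890481)) := mul_nonneg (by positivity) (by norm_num)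
  have t4 : 0 ≤ ((C - 1) ^ 4 * ((7/5) - C) ^ 2) * ((8135958670375/126247696)) := mul_nonneg (by positivity) (by norm_num)
  have t5 : 0 ≤ ((C - 1) ^ 5 * ((7/5) - C) ^ 1) * ((978431490025/31561924)) := mul_nonneg (by positivity) (by norm_num)
  have t6 : 0 ≤ ((C - 1) ^ 6) * ((777939335675/126247696)) := mul_nonneg (by positivity) (by norm_num)
  have h : (-(584200/7890481)) + (127060/148877) * C + (-(31626960/7890481)) * C ^ 2 + (64672920/7890481) * C ^ 3 + (27386960/7890481) * C ^ 4 + (-(3546560/7890481)) * C ^ 5 + (-(1500800/7890481)) * C ^ 6 = (((7/5) - C) ^ 6) * ((240373203125/126247696)) + ((C - 1) ^ 1 * ((7/5) - C) ^ 5) * ((446618109375/31561924)) + ((C - 1) ^ 2 * ((7/5) - C) ^ 4) * ((5494724115625/126247696)) + ((C - 1) ^ 3 * ((7/5) - C) ^ 3) * ((559301308750/7890481)) + ((C - 1) ^ 4 * ((7/5) - C) ^ 2) * ((8135958670375/126247696)) + ((C - 1) ^ 5 * ((7/5) - C) ^ 1) * ((978431490025/31561924)) + ((C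 - 1) ^ 6) * ((777939335675/126247696)) := by ring
  rw [h]
  exact (add_nonneg (add_nonneg (add_nonneg (add_nonneg (add_nonneg (add_nonneg t0 t1) t2) t3) t4) t5) t6)

lemma claim2_1 {e C : ℝ} (l_e : 0 ≤ e) (m_e : e ≤ (1/4)) (l_C : 1 ≤ C) (m_C : C ≤ (7/5)) :
    0 ≤ (-(400/7890481)) + (2737260/7890481) * C * e + (-(4214860/7890481)) * C * e ^ 2 + (-(2983500/7890481)) * C ^ 2 + (6478600/7890481) * C ^ 2 * e + (-(9805360/7890481)) * C ^ 2 * e ^ 2 + (6800600/7890481) * C ^ 3 + (-(8765740/7890481)) * C ^ 3 * e + (-(9073720/7890481)) * C ^ 3 * e ^ 2 + (4354680/7890481) * C ^ 4 + (-(9954180/7890481)) * C ^ 4 * e + (-(2471200/7890481)) * C ^ 4 * e ^ 2 + (275140/7890481) * C ^ 5 + (-(1987200/7890481)) * C ^ 5 * e + (-(93800/7890481)) * C ^ 6 + (-(577800/7890481)) * e ^ 2 := by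
  have hu : 0 ≤ e := l_e
  have hw : 0 ≤ ((1/4) - e) := sub_nonneg.2 m_e
  have t0 : 0 ≤ (((1/4) - e) ^ 2) * ((-(6400/7890481)) + (-(47736000/7890481)) * C ^ 2 + (108809600/7890481) * C ^ 3 + (69674880/7890481) * C ^ 4 + (4402240/7890481) * C ^ 5 + (-(1500800/7890481)) * C ^ 6) := mul_nonneg (by positivity) (claim2_1_0 l_C m_C)
  have t1 : 0 ≤ (e ^ 1 * ((1/4) - e) ^ 1) * ((-(12800/7890481)) + (10949040/7890481) * C + (-(69557600/7890481)) * C ^ 2 + (182556240/7890481) * C ^ 3 + (99533040/7890481) * C ^ 4 + (855680/7890481) * C ^ 5 + (-(3001600/7890481)) * C ^ 6) := mul_nonneg (by positivity) (claim2_1_1 l_C m_C)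
  have t2 : 0 ≤ (e ^ 2) * ((-(584200/7890481)) + (127060/148877) * C + (-(31626960/7890481)) * C ^ 2 + (64672920/7890481) * C ^ 3 + (27386960/7890481) * C ^ 4 + (-(3546560/7890481)) * C ^ 5 + (-(1500800/7890481)) * C ^ 6) := mul_nonneg (by positivity) (claim2_1_2 l_C m_C)
  have h : (-(400/7890481)) + (2737260/7890481) * C * e + (-(4214860/7890481)) * C * e ^ 2 + (-(2983500/7890481)) * C ^ 2 + (6478600/7890481) * C ^ 2 * e + (-(9805360/7890481)) * C ^ 2 * e ^ 2 + (6800600/7890481) * C ^ 3 + (-(8765740/7890481)) * C ^ 3 * e + (-(9073720/7890481)) * C ^ 3 * e ^ 2 + (4354680/7890481) * C ^ 4 + (-(9954180/7890481)) * C ^ 4 * e + (-(2471200/7890481)) * C ^ 4 * e ^ 2 + (275140/7890481) * C ^ 5 + (-(1987200/7890481)) * C ^ 5 * e + (-(93800/7890481)) * C ^ 6 + (-(577800/7890481)) * e ^ 2 = (((1/4) - e) ^ 2) * ((-(6400/7890481)) + (-(47736000/7890481)) * C ^ 2 + (108809600/7890481) * C ^ 3 + (69674880/7890481)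 * C ^ 4 + (4402240/7890481) * C ^ 5 + (-(1500800/7890481)) * C ^ 6) + (e ^ 1 * ((1/4) - e) ^ 1) * ((-(12800/7890481)) + (10949040/7890481) * C + (-(69557600/7890481)) * C ^ 2 + (182556240/7890481) * C ^ 3 + (99533040/7890481) * C ^ 4 + (855680/7890481) * C ^ 5 + (-(3001600/7890481)) * C ^ 6) + (e ^ 2) * ((-(584200/7890481)) + (127060/148877) * C + (-(31626960/7890481)) * C ^ 2 + (64672920/7890481) * C ^ 3 + (27386960/7890481) * C ^ 4 + (-(3546560/7890481)) * C ^ 5 + (-(1500800/7890481)) * C ^ 6) := by ring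
  rw [h]
  exact (add_nonneg (add_nonneg t0 t1) t2)

lemma claim2_2_0 {C : ℝ} (l_C : 1 ≤ C) (m_C : C ≤ (7/5)) :
    0 ≤ (-(9600/7890481)) + (-(251252800/7890481)) * C ^ 2 + (542694400/7890481) * C ^ 3 + (221841600/7890481) * C ^ 4 + (-(20931200/7890481)) * C ^ 5 + (-(8526400/7890481)) * C ^ 6 := by
  have hu : 0 ≤ (C - 1) := sub_nonneg.2 l_C
  have hw : 0 ≤ ((7/5) - C) := sub_nonneg.2 m_C
  have t0 : 0 ≤ (((7/5) - C) ^ 6) * ((118119140625/7890481)) := mul_nonneg (by positivity) (by norm_num)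
  have t1 : 0 ≤ ((C - 1) ^ 1 * ((7/5) - C) ^ 5) * ((890075156250/7890481)) := mul_nonneg (by positivity) (by norm_num)
  have t2 : 0 ≤ ((C - 1) ^ 2 * ((7/5) - C) ^ 4) * ((2771193046875/7890481)) := mul_nonneg (by positivity) (by norm_num)
  have t3 : 0 ≤ ((C - 1) ^ 3 * ((7/5) - C) ^ 3) * ((4562813137500/7890481)) := mul_nonneg (by positivity) (by norm_num)
  have t4 : 0 ≤ ((C - 1) ^ 4 * ((7/5) - C) ^ 2) * ((4190178644375/7890481)) := mul_nonneg (by positivity) (by norm_num)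
  have t5 : 0 ≤ ((C - 1) ^ 5 * ((7/5) - C) ^ 1) * ((2034848902250/7890481)) := mul_nonneg (by positivity) (by norm_num)
  have t6 : 0 ≤ ((C - 1) ^ 6) * ((408237837725/7890481)) := mul_nonneg (by positivity) (by norm_num)
  have h : (-(9600/7890481)) + (-(251252800/7890481)) * C ^ 2 + (542694400/7890481) * C ^ 3 + (221841600/7890481) * C ^ 4 + (-(20931200/7890481)) * C ^ 5 + (-(8526400/7890481)) * C ^ 6 = (((7/5) - C) ^ 6) * ((118119140625/7890481)) + ((C - 1) ^ 1 * ((7/5) - C) ^ 5) * ((890075156250/7890481)) + ((C - 1) ^ 2 * ((7/5) - C) ^ 4) * ((2771193046875/7890481)) + ((C - 1) ^ 3 * ((7/5) - C) ^ 3) * ((4562813137500/7890481)) + ((C - 1) ^ 4 * ((7/5) - C) ^ 2) * ((4190178644375/7890481)) + ((C - 1) ^ 5 * ((7/5) - C) ^ 1) * ((2034848902250/7890481)) + ((C - 1) ^ 6) * ((408237837725/7890481)) := by ring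
  rw [h]
  exact (add_nonneg (add_nonneg (add_nonneg (add_nonneg (add_nonneg (add_nonneg t0 t1) t2) t3) t4) t5) t6)

lemma claim2_2_1 {C : ℝ} (l_C : 1 ≤ C) (m_C : C ≤ (7/5)) :
    0 ≤ (-(19200/7890481)) + (42853600/7890481) * C + (-(369400000/7890481)) * C ^ 2 + (941628000/7890481) * C ^ 3 + (304625600/7890481) * C ^ 4 + (-(63876800/7890481)) * C ^ 5 + (-(17052800/7890481)) * C ^ 6 := by
  have hu : 0 ≤ (C - 1) := sub_nonneg.2 l_C
  have hw : 0 ≤ ((7/5) - C) := sub_nonneg.2 m_C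
  have t0 : 0 ≤ (((7/5) - C) ^ 6) * ((204775000000/7890481)) := mul_nonneg (by positivity) (by norm_num)
  have t1 : 0 ≤ ((C - 1) ^ 1 * ((7/5) - C) ^ 5) * ((1514366718750/7890481)) := mul_nonneg (by positivity) (by norm_num)
  have t2 : 0 ≤ ((C - 1) ^ 2 * ((7/5) - C) ^ 4) * ((4632578812500/7890481)) := mul_nonneg (by positivity) (by norm_num)
  have t3 : 0 ≤ ((C - 1) ^ 3 * ((7/5) - C) ^ 3) * ((7500590350000/7890481)) := mul_nonneg (by positivity) (by norm_num)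
  have t4 : 0 ≤ ((C - 1) ^ 4 * ((7/5) - C) ^ 2) * ((6776649422500/7890481)) := mul_nonneg (by positivity) (by norm_num)
  have t5 : 0 ≤ ((C - 1) ^ 5 * ((7/5) - C) ^ 1) * ((3238243967250/7890481)) := mul_nonneg (by positivity) (by norm_num)
  have t6 : 0 ≤ ((C - 1) ^ 6) * ((639180748200/7890481)) := mul_nonneg (by positivity) (by norm_num)
  have h : (-(19200/7890481)) + (42853600/7890481) * C + (-(369400000/7890481)) * C ^ 2 + (941628000/7890481) * C ^ 3 + (304625600/7890481) * C ^ 4 + (-(63876800/7890481)) * C ^ 5 + (-(17052800/7890481)) * C ^ 6 = (((7/5) - C) ^ 6) * ((204775000000/7890481)) + ((C - 1) ^ 1 * ((7/5) - C) ^ 5) * ((1514366718750/7890481)) + ((C - 1) ^ 2 * ((7/5) - C) ^ 4) * ((4632578812500/7890481)) + ((C - 1) ^ 3 * ((7/5) - C) ^ 3) * ((7500590350000/7890481)) + ((C - 1) ^ 4 * ((7/5) - C) ^ 2) * ((6776649422500/7890481)) + ((C - 1) ^ 5 * ((7/5) - C) ^ 1) * ((3238243967250/7890481)) + ((C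 - 1) ^ 6) * ((639180748200/7890481)) := by ring
  rw [h]
  exact (add_nonneg (add_nonneg (add_nonneg (add_nonneg (add_nonneg (add_nonneg t0 t1) t2) t3) t4) t5) t6)

lemma claim2_2_2 {C : ℝ} (l_C : 1 ≤ C) (m_C : C ≤ (7/5)) :
    0 ≤ (-(1586500/7890481)) + (534800/148877) * C + (-(155662200/7890481)) * C ^ 2 + (368631200/7890481) * C ^ 3 + (76236400/7890481) * C ^ 4 + (-(42945600/7890481)) * C ^ 5 + (-(8526400/7890481)) * C ^ 6 := by
  have hu : 0 ≤ (C - 1) := sub_nonneg.2 l_C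
  have hw : 0 ≤ ((7/5) - C) := sub_nonneg.2 m_C
  have t0 : 0 ≤ (((7/5) - C) ^ 6) * ((1033169140625/126247696)) := mul_nonneg (by positivity) (by norm_num)
  have t1 : 0 ≤ ((C - 1) ^ 1 * ((7/5) - C) ^ 5) * ((3772923671875/63123848)) := mul_nonneg (by positivity) (by norm_num)
  have t2 : 0 ≤ ((C - 1) ^ 2 * ((7/5) - C) ^ 4) * ((22763135734375/126247696)) := mul_nonneg (by positivity) (by norm_num)
  have t3 : 0 ≤ ((C - 1) ^ 3 * ((7/5) - C) ^ 3) * ((9068962628125/31561924)) := mul_nonneg (by positivity) (by norm_num)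
  have t4 : 0 ≤ ((C - 1) ^ 4 * ((7/5) - C) ^ 2) * ((32183034699375/126247696)) := mul_nonneg (by positivity) (by norm_num)
  have t5 : 0 ≤ ((C - 1) ^ 5 * ((7/5) - C) ^ 1) * ((7528537381875/63123848)) := mul_nonneg (by positivity) (by norm_num)
  have t6 : 0 ≤ ((C - 1) ^ 6) * ((2899296623225/126247696)) := mul_nonneg (by positivity) (by norm_num)
  have h : (-(1586500/7890481)) + (534800/148877) * C + (-(155662200/7890481)) * C ^ 2 + (368631200/7890481) * C ^ 3 + (76236400/7890481) * C ^ 4 + (-(42945600/7890481)) * C ^ 5 + (-(8526400/7890481)) * C ^ 6 = (((7/5) - C) ^ 6) * ((1033169140625/126247696)) + ((C - 1) ^ 1 * ((7/5) - C) ^ 5) * ((3772923671875/63123848)) + ((C - 1) ^ 2 * ((7/5) - C) ^ 4) * ((22763135734375/126247696)) + ((C - 1) ^ 3 * ((7/5) - C) ^ 3) * ((9068962628125/31561924)) + ((C - 1) ^ 4 * ((7/5) - C) ^ 2) * ((32183034699375/126247696)) + ((C - 1) ^ 5 * ((7/5) - C) ^ 1) * ((7528537381875/63123848))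 + ((C - 1) ^ 6) * ((2899296623225/126247696)) := by ring
  rw [h]
  exact (add_nonneg (add_nonneg (add_nonneg (add_nonneg (add_nonneg (add_nonneg t0 t1) t2) t3) t4) t5) t6)

lemma claim2_2 {e C : ℝ} (l_e : 0 ≤ e) (m_e : e ≤ (1/4)) (l_C : 1 ≤ C) (m_C : C ≤ (7/5)) :
    0 ≤ (-(600/7890481)) + (10713400/7890481) * C * e + (-(14509200/7890481)) * C * e ^ 2 + (-(15703300/7890481)) * C ^ 2 + (33276400/7890481) * C ^ 2 * e + (-(37515000/7890481)) * C ^ 2 * e ^ 2 + (33918400/7890481) * C ^ 3 + (-(35940200/7890481)) * C ^ 3 * e + (-(30302400/7890481)) * C ^ 3 * e ^ 2 + (13865100/7890481) * C ^ 4 + (-(34764400/7890481)) * C ^ 4 * e + (-(6547600/7890481)) * C ^ 4 * e ^ 2 + (-(1308200/7890481)) * C ^ 5 + (-(5503600/7890481)) * C ^ 5 * e + (-(532900/7890481)) * C ^ 6 + (-(1576900/7890481)) * e ^ 2 := by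
  have hu : 0 ≤ e := l_e
  have hw : 0 ≤ ((1/4) - e) := sub_nonneg.2 m_e
  have t0 : 0 ≤ (((1/4) - e) ^ 2) * ((-(9600/7890481)) + (-(251252800/7890481)) * C ^ 2 + (542694400/7890481) * C ^ 3 + (221841600/7890481) * C ^ 4 + (-(20931200/7890481)) * C ^ 5 + (-(8526400/7890481)) * C ^ 6) := mul_nonneg (by positivity) (claim2_2_0 l_C m_C)
  have t1 : 0 ≤ (e ^ 1 * ((1/4) - e) ^ 1) * ((-(19200/7890481)) + (42853600/7890481) * C + (-(369400000/7890481)) * C ^ 2 + (941628000/7890481) * C ^ 3 + (304625600/7890481) * C ^ 4 + (-(63876800/7890481)) * C ^ 5 + (-(17052800/7890481)) * C ^ 6) := mul_nonneg (by positivity) (claim2_2_1 l_C m_C)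
  have t2 : 0 ≤ (e ^ 2) * ((-(1586500/7890481)) + (534800/148877) * C + (-(155662200/7890481)) * C ^ 2 + (368631200/7890481) * C ^ 3 + (76236400/7890481) * C ^ 4 + (-(42945600/7890481)) * C ^ 5 + (-(8526400/7890481)) * C ^ 6) := mul_nonneg (by positivity) (claim2_2_2 l_C m_C)
  have h : (-(600/7890481)) + (10713400/7890481) * C * e + (-(14509200/7890481)) * C * e ^ 2 + (-(15703300/7890481)) * C ^ 2 + (33276400/7890481) * C ^ 2 * e + (-(37515000/7890481)) * C ^ 2 * e ^ 2 + (33918400/7890481) * C ^ 3 + (-(35940200/7890481)) * C ^ 3 * e + (-(30302400/7890481)) * C ^ 3 * e ^ 2 + (13865100/7890481) * C ^ 4 + (-(34764400/7890481)) * C ^ 4 * e + (-(6547600/7890481)) * C ^ 4 * e ^ 2 + (-(1308200/7890481)) * C ^ 5 + (-(5503600/7890481)) * C ^ 5 * e + (-(532900/7890481)) * C ^ 6 + (-(1576900/7890481)) * e ^ 2 = (((1/4) - e) ^ 2) * ((-(9600/7890481)) + (-(251252800/7890481)) * C ^ 2 + (542694400/7890481) * C ^ 3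 + (221841600/7890481) * C ^ 4 + (-(20931200/7890481)) * C ^ 5 + (-(8526400/7890481)) * C ^ 6) + (e ^ 1 * ((1/4) - e) ^ 1) * ((-(19200/7890481)) + (42853600/7890481) * C + (-(369400000/7890481)) * C ^ 2 + (941628000/7890481) * C ^ 3 + (304625600/7890481) * C ^ 4 + (-(63876800/7890481)) * C ^ 5 + (-(17052800/7890481)) * C ^ 6) + (e ^ 2) * ((-(1586500/7890481)) + (534800/148877) * C + (-(155662200/7890481)) * C ^ 2 + (368631200/7890481) * C ^ 3 + (76236400/7890481) * C ^ 4 + (-(42945600/7890481)) * C ^ 5 + (-(8526400/7890481)) * C ^ 6) := by ring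
  rw [h]
  exact (add_nonneg (add_nonneg t0 t1) t2)

lemma claim2_3_0 {C : ℝ} (l_C : 1 ≤ C) (m_C : C ≤ (7/5)) :
    0 ≤ (-(6400/7890481)) + (-(582400000/7890481)) * C ^ 2 + (1211040000/7890481) * C ^ 3 + (195552000/7890481) * C ^ 4 + (-(98528000/7890481)) * C ^ 5 + (-(12864000/7890481)) * C ^ 6 := by
  have hu : 0 ≤ (C - 1) := sub_nonneg.2 l_C
  have hw : 0 ≤ ((7/5) - C) := sub_nonneg.2 m_C
  have t0 : 0 ≤ (((7/5) - C) ^ 6) * ((174021875000/7890481)) := mul_nonneg (by positivity) (by norm_num)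
  have t1 : 0 ≤ ((C - 1) ^ 1 * ((7/5) - C) ^ 5) * ((1305918750000/7890481)) := mul_nonneg (by positivity) (by norm_num)
  have t2 : 0 ≤ ((C - 1) ^ 2 * ((7/5) - C) ^ 4) * ((4038241875000/7890481)) := mul_nonneg (by positivity) (by norm_num)
  have t3 : 0 ≤ ((C - 1) ^ 3 * ((7/5) - C) ^ 3) * ((6585947000000/7890481)) := mul_nonneg (by positivity) (by norm_num)
  have t4 : 0 ≤ ((C - 1) ^ 4 * ((7/5) - C) ^ 2) * ((5974186325000/7890481)) := mul_nonneg (by positivity) (by norm_num)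
  have t5 : 0 ≤ ((C - 1) ^ 5 * ((7/5) - C) ^ 1) * ((2857597370000/7890481)) := mul_nonneg (by positivity) (by norm_num)
  have t6 : 0 ≤ ((C - 1) ^ 6) * ((563000181000/7890481)) := mul_nonneg (by positivity) (by norm_num)
  have h : (-(6400/7890481)) + (-(582400000/7890481)) * C ^ 2 + (1211040000/7890481) * C ^ 3 + (195552000/7890481) * C ^ 4 + (-(98528000/7890481)) * C ^ 5 + (-(12864000/7890481)) * C ^ 6 = (((7/5) - C) ^ 6) * ((174021875000/7890481)) + ((C - 1) ^ 1 * ((7/5) - C) ^ 5) * ((1305918750000/7890481)) + ((C - 1) ^ 2 * ((7/5) - C) ^ 4) * ((4038241875000/7890481)) + ((C - 1) ^ 3 * ((7/5) - C) ^ 3) * ((6585947000000/7890481)) + ((C - 1) ^ 4 * ((7/5) - C) ^ 2) * ((5974186325000/7890481)) + ((C - 1) ^ 5 * ((7/5) - C) ^ 1) * ((2857597370000/7890481)) + ((C - 1) ^ 6) * ((563000181000/7890481)) := by ring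
  rw [h]
  exact (add_nonneg (add_nonneg (add_nonneg (add_nonneg (add_nonneg (add_nonneg t0 t1) t2) t3) t4) t5) t6)

lemma claim2_3_1 {C : ℝ} (l_C : 1 ≤ C) (m_C : C ≤ (7/5)) :
    0 ≤ (-(12800/7890481)) + (68736000/7890481) * C + (-(864176000/7890481)) * C ^ 2 + (2132952000/7890481) * C ^ 3 + (179368000/7890481) * C ^ 4 + (-(221456000/7890481)) * C ^ 5 + (-(25728000/7890481)) * C ^ 6 := by
  have hu : 0 ≤ (C - 1) := sub_nonneg.2 l_C
  have hw : 0 ≤ ((7/5) - C) := sub_nonneg.2 m_C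
  have t0 : 0 ≤ (((7/5) - C) ^ 6) * ((309981250000/7890481)) := mul_nonneg (by positivity) (by norm_num)
  have t1 : 0 ≤ ((C - 1) ^ 1 * ((7/5) - C) ^ 5) * ((2269561718750/7890481)) := mul_nonneg (by positivity) (by norm_num)
  have t2 : 0 ≤ ((C - 1) ^ 2 * ((7/5) - C) ^ 4) * ((6854746406250/7890481)) := mul_nonneg (by positivity) (by norm_num)
  have t3 : 0 ≤ ((C - 1) ^ 3 * ((7/5) - C) ^ 3) * ((10924888812500/7890481)) := mul_nonneg (by positivity) (by norm_num)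
  have t4 : 0 ≤ ((C - 1) ^ 4 * ((7/5) - C) ^ 2) * ((9683874987500/7890481)) := mul_nonneg (by positivity) (by norm_num)
  have t5 : 0 ≤ ((C - 1) ^ 5 * ((7/5) - C) ^ 1) * ((4523208508750/7890481)) := mul_nonneg (by positivity) (by norm_num)
  have t6 : 0 ≤ ((C - 1) ^ 6) * ((869030668250/7890481)) := mul_nonneg (by positivity) (by norm_num)
  have h : (-(12800/7890481)) + (68736000/7890481) * C + (-(864176000/7890481)) * C ^ 2 + (2132952000/7890481) * C ^ 3 + (179368000/7890481) * C ^ 4 + (-(221456000/7890481)) * C ^ 5 + (-(25728000/7890481)) * C ^ 6 = (((7/5) - C) ^ 6) * ((309981250000/7890481)) + ((C - 1) ^ 1 * ((7/5) - C) ^ 5) * ((2269561718750/7890481)) + ((C - 1) ^ 2 * ((7/5) - C) ^ 4) * ((6854746406250/7890481)) + ((C - 1) ^ 3 * ((7/5) - C) ^ 3) * ((10924888812500/7890481)) + ((C - 1) ^ 4 * ((7/5) - C) ^ 2) * ((9683874987500/7890481)) + ((C - 1) ^ 5 * ((7/5) - C) ^ 1) * ((4523208508750/7890481)) +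 ((C - 1) ^ 6) * ((869030668250/7890481)) := by ring
  rw [h]
  exact (add_nonneg (add_nonneg (add_nonneg (add_nonneg (add_nonneg (add_nonneg t0 t1) t2) t3) t4) t5) t6)

lemma claim2_3_2 {C : ℝ} (l_C : 1 ≤ C) (m_C : C ≤ (7/5)) :
    0 ≤ (-(1718400/7890481)) + (898000/148877) * C + (-(347384000/7890481)) * C ^ 2 + (878560000/7890481) * C ^ 3 + (-(23192000/7890481)) * C ^ 4 + (-(122928000/7890481)) * C ^ 5 + (-(12864000/7890481)) * C ^ 6 := by
  have hu : 0 ≤ (C - 1) := sub_nonneg.2 l_C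
  have hw : 0 ≤ ((7/5) - C) := sub_nonneg.2 m_C
  have t0 : 0 ≤ (((7/5) - C) ^ 6) * ((408269140625/31561924)) := mul_nonneg (by positivity) (by norm_num)
  have t1 : 0 ≤ ((C - 1) ^ 1 * ((7/5) - C) ^ 5) * ((729973437500/7890481)) := mul_nonneg (by positivity) (by norm_num)
  have t2 : 0 ≤ ((C - 1) ^ 2 * ((7/5) - C) ^ 4) * ((8589010390625/31561924)) := mul_nonneg (by positivity) (by norm_num)
  have t3 : 0 ≤ ((C - 1) ^ 3 * ((7/5) - C) ^ 3) * ((3319672218750/7890481)) := mul_nonneg (by positivity) (by norm_num)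
  have t4 : 0 ≤ ((C - 1) ^ 4 * ((7/5) - C) ^ 2) * ((11356134871875/31561924)) := mul_nonneg (by positivity) (by norm_num)
  have t5 : 0 ≤ ((C - 1) ^ 5 * ((7/5) - C) ^ 1) * ((1270097413750/7890481)) := mul_nonneg (by positivity) (by norm_num)
  have t6 : 0 ≤ ((C - 1) ^ 6) * ((925506420875/31561924)) := mul_nonneg (by positivity) (by norm_num)
  have h : (-(1718400/7890481)) + (898000/148877) * C + (-(347384000/7890481)) * C ^ 2 + (878560000/7890481) * C ^ 3 + (-(23192000/7890481)) * C ^ 4 + (-(122928000/7890481)) * C ^ 5 + (-(12864000/7890481)) * C ^ 6 = (((7/5) - C) ^ 6) * ((408269140625/31561924)) + ((C - 1) ^ 1 * ((7/5) - C) ^ 5) * ((729973437500/7890481)) + ((C - 1) ^ 2 * ((7/5) - C) ^ 4) * ((8589010390625/31561924)) + ((C - 1) ^ 3 * ((7/5) - C) ^ 3) * ((3319672218750/7890481)) + ((C - 1) ^ 4 * ((7/5) - C) ^ 2) * ((11356134871875/31561924)) + ((C - 1) ^ 5 * ((7/5) - C) ^ 1) * ((1270097413750/7890481))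 + ((C - 1) ^ 6) * ((925506420875/31561924)) := by ring
  rw [h]
  exact (add_nonneg (add_nonneg (add_nonneg (add_nonneg (add_nonneg (add_nonneg t0 t1) t2) t3) t4) t5) t6)

lemma claim2_3 {e C : ℝ} (l_e : 0 ≤ e) (m_e : e ≤ (1/4)) (l_C : 1 ≤ C) (m_C : C ≤ (7/5)) :
    0 ≤ (-(400/7890481)) + (17184000/7890481) * C * e + (-(21142000/7890481)) * C * e ^ 2 + (-(36400000/7890481)) * C ^ 2 + (75156000/7890481) * C ^ 2 * e + (-(65608000/7890481)) * C ^ 2 * e ^ 2 + (75690000/7890481) * C ^ 3 + (-(72282000/7890481)) * C ^ 3 * e + (-(43352000/7890481)) * C ^ 3 * e ^ 2 + (12222000/7890481) * C ^ 4 + (-(52934000/7890481)) * C ^ 4 * e + (-(7008000/7890481)) * C ^ 4 * e ^ 2 + (-(6158000/7890481)) * C ^ 5 + (-(6100000/7890481)) * C ^ 5 * e + (-(804000/7890481)) * C ^ 6 + (-(1712000/7890481)) * e ^ 2 := by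
  have hu : 0 ≤ e := l_e
  have hw : 0 ≤ ((1/4) - e) := sub_nonneg.2 m_e
  have t0 : 0 ≤ (((1/4) - e) ^ 2) * ((-(6400/7890481)) + (-(582400000/7890481)) * C ^ 2 + (1211040000/7890481) * C ^ 3 + (195552000/7890481) * C ^ 4 + (-(98528000/7890481)) * C ^ 5 + (-(12864000/7890481)) * C ^ 6) := mul_nonneg (by positivity) (claim2_3_0 l_C m_C)
  have t1 : 0 ≤ (e ^ 1 * ((1/4) - e) ^ 1) * ((-(12800/7890481)) + (68736000/7890481) * C + (-(864176000/7890481)) * C ^ 2 + (2132952000/7890481) * C ^ 3 + (179368000/7890481) * C ^ 4 + (-(221456000/7890481)) * C ^ 5 + (-(25728000/7890481)) * C ^ 6) := mul_nonneg (by positivity) (claim2_3_1 l_C m_C)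
  have t2 : 0 ≤ (e ^ 2) * ((-(1718400/7890481)) + (898000/148877) * C + (-(347384000/7890481)) * C ^ 2 + (878560000/7890481) * C ^ 3 + (-(23192000/7890481)) * C ^ 4 + (-(122928000/7890481)) * C ^ 5 + (-(12864000/7890481)) * C ^ 6) := mul_nonneg (by positivity) (claim2_3_2 l_C m_C)
  have h : (-(400/7890481)) + (17184000/7890481) * C * e + (-(21142000/7890481)) * C * e ^ 2 + (-(36400000/7890481)) * C ^ 2 + (75156000/7890481) * C ^ 2 * e + (-(65608000/7890481)) * C ^ 2 * e ^ 2 + (75690000/7890481) * C ^ 3 + (-(72282000/7890481)) * C ^ 3 * e + (-(43352000/7890481)) * C ^ 3 * e ^ 2 + (12222000/7890481) * C ^ 4 + (-(52934000/7890481)) * C ^ 4 * e + (-(7008000/7890481)) * C ^ 4 * e ^ 2 + (-(6158000/7890481)) * C ^ 5 + (-(6100000/7890481)) * C ^ 5 * e + (-(804000/7890481)) * C ^ 6 + (-(1712000/7890481)) * e ^ 2 = (((1/4) - e) ^ 2) * ((-(6400/7890481)) + (-(582400000/7890481)) * C ^ 2 + (1211040000/7890481) *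 C ^ 3 + (195552000/7890481) * C ^ 4 + (-(98528000/7890481)) * C ^ 5 + (-(12864000/7890481)) * C ^ 6) + (e ^ 1 * ((1/4) - e) ^ 1) * ((-(12800/7890481)) + (68736000/7890481) * C + (-(864176000/7890481)) * C ^ 2 + (2132952000/7890481) * C ^ 3 + (179368000/7890481) * C ^ 4 + (-(221456000/7890481)) * C ^ 5 + (-(25728000/7890481)) * C ^ 6) + (e ^ 2) * ((-(1718400/7890481)) + (898000/148877) * C + (-(347384000/7890481)) * C ^ 2 + (878560000/7890481) * C ^ 3 + (-(23192000/7890481)) * C ^ 4 + (-(122928000/7890481)) * C ^ 5 + (-(12864000/7890481)) * C ^ 6) := by ring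
  rw [h]
  exact (add_nonneg (add_nonneg t0 t1) t2)

lemma claim2_4_0 {C : ℝ} (l_C : 1 ≤ C) (m_C : C ≤ (7/5)) :
    0 ≤ (-(1600/7890481)) + (-(501760000/7890481)) * C ^ 2 + (1021440000/7890481) * C ^ 3 + (-(89760000/7890481)) * C ^ 4 + (-(74240000/7890481)) * C ^ 5 + (-(5760000/7890481)) * C ^ 6 := by
  have hu : 0 ≤ (C - 1) := sub_nonneg.2 l_C
  have hw : 0 ≤ ((7/5) - C) := sub_nonneg.2 m_C
  have t0 : 0 ≤ (((7/5) - C) ^ 6) * ((85429296875/7890481)) := mul_nonneg (by positivity) (by norm_num)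
  have t1 : 0 ≤ ((C - 1) ^ 1 * ((7/5) - C) ^ 5) * ((639138281250/7890481)) := mul_nonneg (by positivity) (by norm_num)
  have t2 : 0 ≤ ((C - 1) ^ 2 * ((7/5) - C) ^ 4) * ((1960939453125/7890481)) := mul_nonneg (by positivity) (by norm_num)
  have t3 : 0 ≤ ((C - 1) ^ 3 * ((7/5) - C) ^ 3) * ((3157910937500/7890481)) := mul_nonneg (by positivity) (by norm_num)
  have t4 : 0 ≤ ((C - 1) ^ 4 * ((7/5) - C) ^ 2) * ((2814618453125/7890481)) := mul_nonneg (by positivity) (by norm_num)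
  have t5 : 0 ≤ ((C - 1) ^ 5 * ((7/5) - C) ^ 1) * ((1315874281250/7890481)) := mul_nonneg (by positivity) (by norm_num)
  have t6 : 0 ≤ ((C - 1) ^ 6) * ((251930536875/7890481)) := mul_nonneg (by positivity) (by norm_num)
  have h : (-(1600/7890481)) + (-(501760000/7890481)) * C ^ 2 + (1021440000/7890481) * C ^ 3 + (-(89760000/7890481)) * C ^ 4 + (-(74240000/7890481)) * C ^ 5 + (-(5760000/7890481)) * C ^ 6 = (((7/5) - C) ^ 6) * ((85429296875/7890481)) + ((C - 1) ^ 1 * ((7/5) - C) ^ 5) * ((639138281250/7890481)) + ((C - 1) ^ 2 * ((7/5) - C) ^ 4) * ((1960939453125/7890481)) + ((C - 1) ^ 3 * ((7/5) - C) ^ 3) * ((3157910937500/7890481)) + ((C - 1) ^ 4 * ((7/5) - C) ^ 2) * ((2814618453125/7890481)) + ((C - 1) ^ 5 * ((7/5) - C) ^ 1) * ((1315874281250/7890481)) + ((C - 1) ^ 6) * ((251930536875/7890481)) := by ring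
  rw [h]
  exact (add_nonneg (add_nonneg (add_nonneg (add_nonneg (add_nonneg (add_nonneg t0 t1) t2) t3) t4) t5) t6)

lemma claim2_4_1 {C : ℝ} (l_C : 1 ≤ C) (m_C : C ≤ (7/5)) :
    0 ≤ (-(3200/7890481)) + (35840000/7890481) * C + (-(748800000/7890481)) * C ^ 2 + (1802800000/7890481) * C ^ 3 + (-(287680000/7890481)) * C ^ 4 + (-(157760000/7890481)) * C ^ 5 + (-(11520000/7890481)) * C ^ 6 := by
  have hu : 0 ≤ (C - 1) := sub_nonneg.2 l_C
  have hw : 0 ≤ ((7/5) - C) := sub_nonneg.2 m_C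
  have t0 : 0 ≤ (((7/5) - C) ^ 6) * ((154510937500/7890481)) := mul_nonneg (by positivity) (by norm_num)
  have t1 : 0 ≤ ((C - 1) ^ 1 * ((7/5) - C) ^ 5) * ((1116323437500/7890481)) := mul_nonneg (by positivity) (by norm_num)
  have t2 : 0 ≤ ((C - 1) ^ 2 * ((7/5) - C) ^ 4) * ((3310168750000/7890481)) := mul_nonneg (by positivity) (by norm_num)
  have t3 : 0 ≤ ((C - 1) ^ 3 * ((7/5) - C) ^ 3) * ((5149598125000/7890481)) := mul_nonneg (by positivity) (by norm_num)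
  have t4 : 0 ≤ ((C - 1) ^ 4 * ((7/5) - C) ^ 2) * ((4425544187500/7890481)) := mul_nonneg (by positivity) (by norm_num)
  have t5 : 0 ≤ ((C - 1) ^ 5 * ((7/5) - C) ^ 1) * ((1987850237500/7890481)) := mul_nonneg (by positivity) (by norm_num)
  have t6 : 0 ≤ ((C - 1) ^ 6) * ((363536405000/7890481)) := mul_nonneg (by positivity) (by norm_num)
  have h : (-(3200/7890481)) + (35840000/7890481) * C + (-(748800000/7890481)) * C ^ 2 + (1802800000/7890481) * C ^ 3 + (-(287680000/7890481)) * C ^ 4 + (-(157760000/7890481)) * C ^ 5 + (-(11520000/7890481)) * C ^ 6 = (((7/5) - C) ^ 6) * ((154510937500/7890481)) + ((C - 1) ^ 1 * ((7/5) - C) ^ 5) * ((1116323437500/7890481)) + ((C - 1) ^ 2 * ((7/5) - C) ^ 4) * ((3310168750000/7890481)) + ((C - 1) ^ 3 * ((7/5) - C) ^ 3) * ((5149598125000/7890481)) + ((C - 1) ^ 4 * ((7/5) - C) ^ 2) * ((4425544187500/7890481)) + ((C - 1) ^ 5 * ((7/5) - C) ^ 1) * ((1987850237500/7890481)) +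 ((C - 1) ^ 6) * ((363536405000/7890481)) := by ring
  rw [h]
  exact (add_nonneg (add_nonneg (add_nonneg (add_nonneg (add_nonneg (add_nonneg t0 t1) t2) t3) t4) t5) t6)

lemma claim2_4_2 {C : ℝ} (l_C : 1 ≤ C) (m_C : C ≤ (7/5)) :
    0 ≤ (-(641600/7890481)) + (480000/148877) * C + (-(291850000/7890481)) * C ^ 2 + (760240000/7890481) * C ^ 3 + (-(200520000/7890481)) * C ^ 4 + (-(83520000/7890481)) * C ^ 5 + (-(5760000/7890481)) * C ^ 6 := by
  have hu : 0 ≤ (C - 1) := sub_nonneg.2 l_C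
  have hw : 0 ≤ ((7/5) - C) := sub_nonneg.2 m_C
  have t0 : 0 ≤ (((7/5) - C) ^ 6) * ((198621484375/31561924)) := mul_nonneg (by positivity) (by norm_num)
  have t1 : 0 ≤ ((C - 1) ^ 1 * ((7/5) - C) ^ 5) * ((687313671875/15780962)) := mul_nonneg (by positivity) (by norm_num)
  have t2 : 0 ≤ ((C - 1) ^ 2 * ((7/5) - C) ^ 4) * ((3872587890625/31561924)) := mul_nonneg (by positivity) (by norm_num)
  have t3 : 0 ≤ ((C - 1) ^ 3 * ((7/5) - C) ^ 3) * ((1413623203125/7890481)) := mul_nonneg (by positivity) (by norm_num)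
  have t4 : 0 ≤ ((C - 1) ^ 4 * ((7/5) - C) ^ 2) * ((4477289265625/31561924)) := mul_nonneg (by positivity) (by norm_num)
  have t5 : 0 ≤ ((C - 1) ^ 5 * ((7/5) - C) ^ 1) * ((899431521875/15780962)) := mul_nonneg (by positivity) (by norm_num)
  have t6 : 0 ≤ ((C - 1) ^ 6) * ((279461519375/31561924)) := mul_nonneg (by positivity) (by norm_num)
  have h : (-(641600/7890481)) + (480000/148877) * C + (-(291850000/7890481)) * C ^ 2 + (760240000/7890481) * C ^ 3 + (-(200520000/7890481)) * C ^ 4 + (-(83520000/7890481)) * C ^ 5 + (-(5760000/7890481)) * C ^ 6 = (((7/5) - C) ^ 6) * ((198621484375/31561924)) + ((C - 1) ^ 1 * ((7/5) - C) ^ 5) * ((687313671875/15780962)) + ((C - 1) ^ 2 * ((7/5) - C) ^ 4) * ((3872587890625/31561924)) + ((C - 1) ^ 3 * ((7/5) - C) ^ 3) * ((1413623203125/7890481)) + ((C - 1) ^ 4 * ((7/5) - C) ^ 2) * ((4477289265625/31561924)) + ((C - 1) ^ 5 * ((7/5) - C) ^ 1) * ((899431521875/15780962))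 + ((C - 1) ^ 6) * ((279461519375/31561924)) := by ring
  rw [h]
  exact (add_nonneg (add_nonneg (add_nonneg (add_nonneg (add_nonneg (add_nonneg t0 t1) t2) t3) t4) t5) t6)

lemma claim2_4 {e C : ℝ} (l_e : 0 ≤ e) (m_e : e ≤ (1/4)) (l_C : 1 ≤ C) (m_C : C ≤ (7/5)) :
    0 ≤ (-(100/7890481)) + (8960000/7890481) * C * e + (-(10400000/7890481)) * C * e ^ 2 + (-(31360000/7890481)) * C ^ 2 + (63680000/7890481) * C ^ 2 * e + (-(44810000/7890481)) * C ^ 2 * e ^ 2 + (63840000/7890481) * C ^ 3 + (-(60020000/7890481)) * C ^ 3 * e + (-(21120000/7890481)) * C ^ 3 * e ^ 2 + (-(5610000/7890481)) * C ^ 4 + (-(27040000/7890481)) * C ^ 4 * e + (-(2600000/7890481)) * C ^ 4 * e ^ 2 + (-(4640000/7890481)) * C ^ 5 + (-(2320000/7890481)) * C ^ 5 * e + (-(360000/7890481)) * C ^ 6 + (-(640000/7890481)) * e ^ 2 := by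
  have hu : 0 ≤ e := l_e
  have hw : 0 ≤ ((1/4) - e) := sub_nonneg.2 m_e
  have t0 : 0 ≤ (((1/4) - e) ^ 2) * ((-(1600/7890481)) + (-(501760000/7890481)) * C ^ 2 + (1021440000/7890481) * C ^ 3 + (-(89760000/7890481)) * C ^ 4 + (-(74240000/7890481)) * C ^ 5 + (-(5760000/7890481)) * C ^ 6) := mul_nonneg (by positivity) (claim2_4_0 l_C m_C)
  have t1 : 0 ≤ (e ^ 1 * ((1/4) - e) ^ 1) * ((-(3200/7890481)) + (35840000/7890481) * C + (-(748800000/7890481)) * C ^ 2 + (1802800000/7890481) * C ^ 3 + (-(287680000/7890481)) * C ^ 4 + (-(157760000/7890481)) * C ^ 5 + (-(11520000/7890481)) * C ^ 6) := mul_nonneg (by positivity) (claim2_4_1 l_C m_C)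
  have t2 : 0 ≤ (e ^ 2) * ((-(641600/7890481)) + (480000/148877) * C + (-(291850000/7890481)) * C ^ 2 + (760240000/7890481) * C ^ 3 + (-(200520000/7890481)) * C ^ 4 + (-(83520000/7890481)) * C ^ 5 + (-(5760000/7890481)) * C ^ 6) := mul_nonneg (by positivity) (claim2_4_2 l_C m_C)
  have h : (-(100/7890481)) + (8960000/7890481) * C * e + (-(10400000/7890481)) * C * e ^ 2 + (-(31360000/7890481)) * C ^ 2 + (63680000/7890481) * C ^ 2 * e + (-(44810000/7890481)) * C ^ 2 * e ^ 2 + (63840000/7890481) * C ^ 3 + (-(60020000/7890481)) * C ^ 3 * e + (-(21120000/7890481)) * C ^ 3 * e ^ 2 + (-(5610000/7890481)) * C ^ 4 + (-(27040000/7890481)) * C ^ 4 * e + (-(2600000/7890481)) * C ^ 4 * e ^ 2 + (-(4640000/7890481)) * C ^ 5 + (-(2320000/7890481)) * C ^ 5 * e + (-(360000/7890481)) * C ^ 6 + (-(640000/7890481)) * e ^ 2 = (((1/4) - e) ^ 2) * ((-(1600/7890481)) + (-(501760000/7890481)) * C ^ 2 + (1021440000/7890481) * C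 ^ 3 + (-(89760000/7890481)) * C ^ 4 + (-(74240000/7890481)) * C ^ 5 + (-(5760000/7890481)) * C ^ 6) + (e ^ 1 * ((1/4) - e) ^ 1) * ((-(3200/7890481)) + (35840000/7890481) * C + (-(748800000/7890481)) * C ^ 2 + (1802800000/7890481) * C ^ 3 + (-(287680000/7890481)) * C ^ 4 + (-(157760000/7890481)) * C ^ 5 + (-(11520000/7890481)) * C ^ 6) + (e ^ 2) * ((-(641600/7890481)) + (480000/148877) * C + (-(291850000/7890481)) * C ^ 2 + (760240000/7890481) * C ^ 3 + (-(200520000/7890481)) * C ^ 4 + (-(83520000/7890481)) * C ^ 5 + (-(5760000/7890481)) * C ^ 6) := by ring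
  rw [h]
  exact (add_nonneg (add_nonneg t0 t1) t2)

lemma claim2 {a e C : ℝ} (l_a : (27/10) ≤ a) (m_a : a ≤ 8) (l_e : 0 ≤ e) (m_e : e ≤ (1/4)) (l_C : 1 ≤ C) (m_C : C ≤ (7/5)) :
    0 < 4 * C ^ 3 * (a + C) * (a + C + e) * (C * a - C - e) - (e * a * (C * (a + C) + 1 + C ^ 2) + C * (C - 1) * (a + C) * a + C * (a + C + e)) ^ 2 := by
  have hu : 0 ≤ (a - (27/10)) := sub_nonneg.2 l_a
  have hw : 0 ≤ (8 - a) := sub_nonneg.2 m_a
  have t0 : 0 ≤ ((8 - a) ^ 4) * ((-(100/7890481)) + (247860/7890481) * C * e + (-(447660/7890481)) * C * e ^ 2 + (-(210681/7890481)) * C ^ 2 + (459162/7890481) * C ^ 2 * e + (-(978841/7890481)) * C ^ 2 * e ^ 2 + (513162/7890481) * C ^ 3 + (-(868502/7890481)) * C ^ 3 * e + (-(1003320/7890481)) * C ^ 3 * e ^ 2 + (431099/7890481) * C ^ 4 + (-(1083780/7890481)) * C ^ 4 * e + (-(331600/7890481)) * C ^ 4 * e ^ 2 + (65340/7890481) * C ^ 5 + (-(263600/7890481)) * C ^ 5 * e + (-(4900/7890481))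 * C ^ 6 + (-(72900/7890481)) * e ^ 2) := mul_nonneg (by positivity) (claim2_0 l_e m_e l_C m_C)
  have t1 : 0 ≤ ((a - (27/10)) ^ 1 * (8 - a) ^ 3) * ((-(400/7890481)) + (2737260/7890481) * C * e + (-(4214860/7890481)) * C * e ^ 2 + (-(2983500/7890481)) * C ^ 2 + (6478600/7890481) * C ^ 2 * e + (-(9805360/7890481)) * C ^ 2 * e ^ 2 + (6800600/7890481) * C ^ 3 + (-(8765740/7890481)) * C ^ 3 * e + (-(9073720/7890481)) * C ^ 3 * e ^ 2 + (4354680/7890481) * C ^ 4 + (-(9954180/7890481)) * C ^ 4 * e + (-(2471200/7890481)) * C ^ 4 * e ^ 2 + (275140/7890481) * C ^ 5 + (-(1987200/7890481)) * C ^ 5 * e + (-(93800/7890481)) * C ^ 6 + (-(577800/7890481)) * e ^ 2) := mul_nonneg (by positivity) (claim2_1 l_e m_e l_C m_C)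
  have t2 : 0 ≤ ((a - (27/10)) ^ 2 * (8 - a) ^ 2) * ((-(600/7890481)) + (10713400/7890481) * C * e + (-(14509200/7890481)) * C * e ^ 2 + (-(15703300/7890481)) * C ^ 2 + (33276400/7890481) * C ^ 2 * e + (-(37515000/7890481)) * C ^ 2 * e ^ 2 + (33918400/7890481) * C ^ 3 + (-(35940200/7890481)) * C ^ 3 * e + (-(30302400/7890481)) * C ^ 3 * e ^ 2 + (13865100/7890481) * C ^ 4 + (-(34764400/7890481)) * C ^ 4 * e + (-(6547600/7890481)) * C ^ 4 * e ^ 2 + (-(1308200/7890481)) * C ^ 5 + (-(5503600/7890481)) * C ^ 5 * e + (-(532900/7890481)) * C ^ 6 + (-(1576900/7890481)) * e ^ 2) := mul_nonneg (by positivity) (claim2_2 l_e m_e l_C m_C)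
  have t3 : 0 ≤ ((a - (27/10)) ^ 3 * (8 - a) ^ 1) * ((-(400/7890481)) + (17184000/7890481) * C * e + (-(21142000/7890481)) * C * e ^ 2 + (-(36400000/7890481)) * C ^ 2 + (75156000/7890481) * C ^ 2 * e + (-(65608000/7890481)) * C ^ 2 * e ^ 2 + (75690000/7890481) * C ^ 3 + (-(72282000/7890481)) * C ^ 3 * e + (-(43352000/7890481)) * C ^ 3 * e ^ 2 + (12222000/7890481) * C ^ 4 + (-(52934000/7890481)) * C ^ 4 * e + (-(7008000/7890481)) * C ^ 4 * e ^ 2 + (-(6158000/7890481)) * C ^ 5 + (-(6100000/7890481)) * C ^ 5 * e + (-(804000/7890481)) * C ^ 6 + (-(1712000/7890481)) * e ^ 2) := mul_nonneg (by positivity) (claim2_3 l_e m_e l_C m_C)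
  have t4 : 0 ≤ ((a - (27/10)) ^ 4) * ((-(100/7890481)) + (8960000/7890481) * C * e + (-(10400000/7890481)) * C * e ^ 2 + (-(31360000/7890481)) * C ^ 2 + (63680000/7890481) * C ^ 2 * e + (-(44810000/7890481)) * C ^ 2 * e ^ 2 + (63840000/7890481) * C ^ 3 + (-(60020000/7890481)) * C ^ 3 * e + (-(21120000/7890481)) * C ^ 3 * e ^ 2 + (-(5610000/7890481)) * C ^ 4 + (-(27040000/7890481)) * C ^ 4 * e + (-(2600000/7890481)) * C ^ 4 * e ^ 2 + (-(4640000/7890481)) * C ^ 5 + (-(2320000/7890481)) * C ^ 5 * e + (-(360000/7890481)) * C ^ 6 + (-(640000/7890481)) * e ^ 2) := mul_nonneg (by positivity) (claim2_4 l_e m_e l_C m_C)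
  have h : 4 * C ^ 3 * (a + C) * (a + C + e) * (C * a - C - e) - (e * a * (C * (a + C) + 1 + C ^ 2) + C * (C - 1) * (a + C) * a + C * (a + C + e)) ^ 2 = (1/100) + (((8 - a) ^ 4) * ((-(100/7890481)) + (247860/7890481) * C * e + (-(447660/7890481)) * C * e ^ 2 + (-(210681/7890481)) * C ^ 2 + (459162/7890481) * C ^ 2 * e + (-(978841/7890481)) * C ^ 2 * e ^ 2 + (513162/7890481) * C ^ 3 + (-(868502/7890481)) * C ^ 3 * e + (-(1003320/7890481)) * C ^ 3 * e ^ 2 + (431099/7890481) * C ^ 4 + (-(1083780/7890481)) * C ^ 4 * e + (-(331600/7890481)) * C ^ 4 * e ^ 2 + (65340/7890481) * C ^ 5 + (-(263600/7890481)) * C ^ 5 * e + (-(4900/7890481)) * C ^ 6 + (-(72900/7890481)) * e ^ 2) + ((a - (27/10)) ^ 1 * (8 - a) ^ 3) * ((-(400/7890481)) + (2737260/7890481) * C * e + (-(4214860/7890481)) * C * e ^ 2 + (-(2983500/7890481)) * C ^ 2 + (6478600/7890481) * C ^ 2 * e + (-(9805360/7890481)) * C ^ 2 * e ^ 2 + (6800600/7890481)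 * C ^ 3 + (-(8765740/7890481)) * C ^ 3 * e + (-(9073720/7890481)) * C ^ 3 * e ^ 2 + (4354680/7890481) * C ^ 4 + (-(9954180/7890481)) * C ^ 4 * e + (-(2471200/7890481)) * C ^ 4 * e ^ 2 + (275140/7890481) * C ^ 5 + (-(1987200/7890481)) * C ^ 5 * e + (-(93800/7890481)) * C ^ 6 + (-(577800/7890481)) * e ^ 2) + ((a - (27/10)) ^ 2 * (8 - a) ^ 2) * ((-(600/7890481)) + (10713400/7890481) * C * e + (-(14509200/7890481)) * C * e ^ 2 + (-(15703300/7890481)) * C ^ 2 + (33276400/7890481) * C ^ 2 * e + (-(37515000/7890481)) * C ^ 2 * e ^ 2 + (33918400/7890481) * C ^ 3 + (-(35940200/7890481)) * C ^ 3 * e + (-(30302400/7890481)) * C ^ 3 * e ^ 2 + (13865100/7890481) * C ^ 4 + (-(34764400/7890481)) * C ^ 4 * e + (-(6547600/7890481)) * C ^ 4 * e ^ 2 + (-(1308200/7890481)) * C ^ 5 + (-(5503600/7890481)) * C ^ 5 * e + (-(532900/7890481)) * C ^ 6 + (-(1576900/7890481)) * e ^ 2) + ((a - (27/10)) ^ 3 * (8 - a) ^ 1) * ((-(400/7890481))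 + (17184000/7890481) * C * e + (-(21142000/7890481)) * C * e ^ 2 + (-(36400000/7890481)) * C ^ 2 + (75156000/7890481) * C ^ 2 * e + (-(65608000/7890481)) * C ^ 2 * e ^ 2 + (75690000/7890481) * C ^ 3 + (-(72282000/7890481)) * C ^ 3 * e + (-(43352000/7890481)) * C ^ 3 * e ^ 2 + (12222000/7890481) * C ^ 4 + (-(52934000/7890481)) * C ^ 4 * e + (-(7008000/7890481)) * C ^ 4 * e ^ 2 + (-(6158000/7890481)) * C ^ 5 + (-(6100000/7890481)) * C ^ 5 * e + (-(804000/7890481)) * C ^ 6 + (-(1712000/7890481)) * e ^ 2) + ((a - (27/10)) ^ 4) * ((-(100/7890481)) + (8960000/7890481) * C * e + (-(10400000/7890481)) * C * e ^ 2 + (-(31360000/7890481)) * C ^ 2 + (63680000/7890481) * C ^ 2 * e + (-(44810000/7890481)) * C ^ 2 * e ^ 2 + (63840000/7890481) * C ^ 3 + (-(60020000/7890481)) * C ^ 3 * e + (-(21120000/7890481)) * C ^ 3 * e ^ 2 + (-(5610000/7890481)) * C ^ 4 + (-(27040000/7890481)) * C ^ 4 * e + (-(2600000/7890481)) *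 C ^ 4 * e ^ 2 + (-(4640000/7890481)) * C ^ 5 + (-(2320000/7890481)) * C ^ 5 * e + (-(360000/7890481)) * C ^ 6 + (-(640000/7890481)) * e ^ 2)) := by ring
  rw [h]
  exact add_pos_of_pos_of_nonneg (by norm_num) (add_nonneg (add_nonneg (add_nonneg (add_nonneg t0 t1) t2) t3) t4)

end D3fc
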