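import Mathlib

set_option maxHeartbeats 4000000
set_option maxRecDepth 4000

namespace D3fc

lemma claim3_0 {C : ℝ} (l_C : 1 ≤ C) (m_C : C ≤ (7/5)) :
    0 ≤ (950621/400) + (1365/2) * C + (49725/16) * C ^ 2 + (-(35789/16)) * C ^ 3 + (-767) * C ^ 4 + (-(221/4)) * C ^ 5 := by
  have hu : 0 ≤ (C - 1) := sub_nonneg.2 l_C
  have hw : 0 ≤ ((7/5) - C) := sub_nonneg.2 m_C
  have t0 : 0 ≤ (((7/5) - C) ^ 5) * ((155390125/512)) := mul_nonneg (by positivity) (by norm_num)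
  have t1 : 0 ≤ ((C - 1) ^ 1 * ((7/5) - C) ^ 4) * ((713819375/512)) := mul_nonneg (by positivity) (by norm_num)
  have t2 : 0 ≤ ((C - 1) ^ 2 * ((7/5) - C) ^ 3) * ((615659625/256)) := mul_nonneg (by positivity) (by norm_num)
  have t3 : 0 ≤ ((C - 1) ^ 3 * ((7/5) - C) ^ 2) * ((473099675/256)) := mul_nonneg (by positivity) (by norm_num)
  have t4 : 0 ≤ ((C - 1) ^ 4 * ((7/5) - C) ^ 1) * ((275432465/512)) := mul_nonneg (by positivity) (by norm_num)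
  have t5 : 0 ≤ ((C - 1) ^ 5) * ((2094827/512)) := mul_nonneg (by positivity) (by norm_num)
  have h : (950621/400) + (1365/2) * C + (49725/16) * C ^ 2 + (-(35789/16)) * C ^ 3 + (-767) * C ^ 4 + (-(221/4)) * C ^ 5 = (((7/5) - C) ^ 5) * ((155390125/512)) + ((C - 1) ^ 1 * ((7/5) - C) ^ 4) * ((713819375/512)) + ((C - 1) ^ 2 * ((7/5) - C) ^ 3) * ((615659625/256)) + ((C - 1) ^ 3 * ((7/5) - C) ^ 2) * ((473099675/256)) + ((C - 1) ^ 4 * ((7/5) - C) ^ 1) * ((275432465/512)) + ((C - 1) ^ 5) * ((2094827/512)) := by ring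
  rw [h]
  exact (add_nonneg (add_nonneg (add_nonneg (add_nonneg (add_nonneg t0 t1) t2) t3) t4) t5)

lemma claim3_1 {C : ℝ} (l_C : 1 ≤ C) (m_C : C ≤ (7/5)) :
    0 ≤ 1365 + (587/2) * C + (3345/2) * C ^ 2 + (-1324) * C ^ 3 + (-(639/2)) * C ^ 4 + (-15) * C ^ 5 := by
  have hu : 0 ≤ (C - 1) := sub_nonneg.2 l_C
  have hw : 0 ≤ ((7/5) - C) := sub_nonneg.2 m_C
  have t0 : 0 ≤ (((7/5) - C) ^ 5) * ((10453125/64)) := mul_nonneg (by positivity) (by norm_num)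
  have t1 : 0 ≤ ((C - 1) ^ 1 * ((7/5) - C) ^ 4) * ((48049375/64)) := mul_nonneg (by positivity) (by norm_num)
  have t2 : 0 ≤ ((C - 1) ^ 2 * ((7/5) - C) ^ 3) * ((41649875/32)) := mul_nonneg (by positivity) (by norm_num)
  have t3 : 0 ≤ ((C - 1) ^ 3 * ((7/5) - C) ^ 2) * ((32516725/32)) := mul_nonneg (by positivity) (by norm_num)
  have t4 : 0 ≤ ((C - 1) ^ 4 * ((7/5) - C) ^ 1) * ((20036405/64)) := mul_nonneg (by positivity) (by norm_num)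
  have t5 : 0 ≤ ((C - 1) ^ 5) * ((705495/64)) := mul_nonneg (by positivity) (by norm_num)
  have h : 1365 + (587/2) * C + (3345/2) * C ^ 2 + (-1324) * C ^ 3 + (-(639/2)) * C ^ 4 + (-15) * C ^ 5 = (((7/5) - C) ^ 5) * ((10453125/64)) + ((C - 1) ^ 1 * ((7/5) - C) ^ 4) * ((48049375/64)) + ((C - 1) ^ 2 * ((7/5) - C) ^ 3) * ((41649875/32)) + ((C - 1) ^ 3 * ((7/5) - C) ^ 2) * ((32516725/32)) + ((C - 1) ^ 4 * ((7/5) - C) ^ 1) * ((20036405/64)) + ((C - 1) ^ 5) * ((705495/64)) := by ring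
  rw [h]
  exact (add_nonneg (add_nonneg (add_nonneg (add_nonneg (add_nonneg t0 t1) t2) t3) t4) t5)

lemma claim3_2 {C : ℝ} (l_C : 1 ≤ C) (m_C : C ≤ (7/5)) :
    0 ≤ (587/2) + 42 * C + (673/2) * C ^ 2 + (-(581/2)) * C ^ 3 + (-44) * C ^ 4 + (-1) * C ^ 5 := by
  have hu : 0 ≤ (C - 1) := sub_nonneg.2 l_C
  have hw : 0 ≤ ((7/5) - C) := sub_nonneg.2 m_C
  have t0 : 0 ≤ (((7/5) - C) ^ 5) * ((2103125/64)) := mul_nonneg (by positivity) (by norm_num)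
  have t1 : 0 ≤ ((C - 1) ^ 1 * ((7/5) - C) ^ 4) * ((9671875/64)) := mul_nonneg (by positivity) (by norm_num)
  have t2 : 0 ≤ ((C - 1) ^ 2 * ((7/5) - C) ^ 3) * ((8423625/32)) := mul_nonneg (by positivity) (by norm_num)
  have t3 : 0 ≤ ((C - 1) ^ 3 * ((7/5) - C) ^ 2) * ((6675575/32)) := mul_nonneg (by positivity) (by norm_num)
  have t4 : 0 ≤ ((C - 1) ^ 4 * ((7/5) - C) ^ 1) * ((4324585/64)) := mul_nonneg (by positivity) (by norm_num)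
  have t5 : 0 ≤ ((C - 1) ^ 5) * ((251871/64)) := mul_nonneg (by positivity) (by norm_num)
  have h : (587/2) + 42 * C + (673/2) * C ^ 2 + (-(581/2)) * C ^ 3 + (-44) * C ^ 4 + (-1) * C ^ 5 = (((7/5) - C) ^ 5) * ((2103125/64)) + ((C - 1) ^ 1 * ((7/5) - C) ^ 4) * ((9671875/64)) + ((C - 1) ^ 2 * ((7/5) - C) ^ 3) * ((8423625/32)) + ((C - 1) ^ 3 * ((7/5) - C) ^ 2) * ((6675575/32)) + ((C - 1) ^ 4 * ((7/5) - C) ^ 1) * ((4324585/64)) + ((C - 1) ^ 5) * ((251871/64)) := by ring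
  rw [h]
  exact (add_nonneg (add_nonneg (add_nonneg (add_nonneg (add_nonneg t0 t1) t2) t3) t4) t5)

lemma claim3_3 {C : ℝ} (l_C : 1 ≤ C) (m_C : C ≤ (7/5)) :
    0 ≤ 28 + 2 * C + 30 * C ^ 2 + (-28) * C ^ 3 + (-2) * C ^ 4 := by
  have hu : 0 ≤ (C - 1) := sub_nonneg.2 l_C
  have hw : 0 ≤ ((7/5) - C) := sub_nonneg.2 m_C
  have t0 : 0 ≤ (((7/5) - C) ^ 4) * ((9375/8)) := mul_nonneg (by positivity) (by norm_num)
  have t1 : 0 ≤ ((C - 1) ^ 1 * ((7/5) - C) ^ 3) * ((16875/4)) := mul_nonneg (by positivity) (by norm_num)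
  have t2 : 0 ≤ ((C - 1) ^ 2 * ((7/5) - C) ^ 2) * ((10425/2)) := mul_nonneg (by positivity) (by norm_num)
  have t3 : 0 ≤ ((C - 1) ^ 3 * ((7/5) - C) ^ 1) * ((9465/4)) := mul_nonneg (by positivity) (by norm_num)
  have t4 : 0 ≤ ((C - 1) ^ 4) * ((1589/8)) := mul_nonneg (by positivity) (by norm_num)
  have h : 28 + 2 * C + 30 * C ^ 2 + (-28) * C ^ 3 + (-2) * C ^ 4 = (((7/5) - C) ^ 4) * ((9375/8)) + ((C - 1) ^ 1 * ((7/5) - C) ^ 3) * ((16875/4)) + ((C - 1) ^ 2 * ((7/5) - C) ^ 2) * ((10425/2)) + ((C - 1) ^ 3 * ((7/5) - C) ^ 1) * ((9465/4)) + ((C - 1) ^ 4) * ((1589/8)) := by ring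
  rw [h]
  exact (add_nonneg (add_nonneg (add_nonneg (add_nonneg t0 t1) t2) t3) t4)

lemma claim3_4 {C : ℝ} (l_C : 1 ≤ C) (m_C : C ≤ (7/5)) :
    0 ≤ 1 + 1 * C ^ 2 + (-1) * C ^ 3 := by
  have hu : 0 ≤ (C - 1) := sub_nonneg.2 l_C
  have hw : 0 ≤ ((7/5) - C) := sub_nonneg.2 m_C
  have t0 : 0 ≤ (((7/5) - C) ^ 3) * ((125/8)) := mul_nonneg (by positivity) (by norm_num)
  have t1 : 0 ≤ ((C - 1) ^ 1 * ((7/5) - C) ^ 2) * ((325/8)) := mul_nonneg (by positivity) (by norm_num)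
  have t2 : 0 ≤ ((C - 1) ^ 2 * ((7/5) - C) ^ 1) * ((235/8)) := mul_nonneg (by positivity) (by norm_num)
  have t3 : 0 ≤ ((C - 1) ^ 3) * ((27/8)) := mul_nonneg (by positivity) (by norm_num)
  have h : 1 + 1 * C ^ 2 + (-1) * C ^ 3 = (((7/5) - C) ^ 3) * ((125/8)) + ((C - 1) ^ 1 * ((7/5) - C) ^ 2) * ((325/8)) + ((C - 1) ^ 2 * ((7/5) - C) ^ 1) * ((235/8)) + ((C - 1) ^ 3) * ((27/8)) := by ring
  rw [h]
  exact (add_nonneg (add_nonneg (add_nonneg t0 t1) t2) t3)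

lemma claim3 {a C : ℝ} (l_a : (15/2) ≤ a) (l_C : 1 ≤ C) (m_C : C ≤ (7/5)) :
    0 < C * (a + C) * (a - 1) * a ^ 2 - (((C - 1) * ((a + C - 1) * a - C)) * a * ((2 * C ^ 2 - C + 1) * (a + C) - 1) - C * ((C - 1) * ((a + C - 1) * a - C)) ^ 2) := by
  have hu : 0 ≤ (a - (15/2)) := sub_nonneg.2 l_a
  have t0 : 0 ≤ ((1:ℝ)) * ((950621/400) + (1365/2) * C + (49725/16) * C ^ 2 + (-(35789/16)) * C ^ 3 + (-767) * C ^ 4 + (-(221/4)) * C ^ 5) := mul_nonneg (by positivity) (claim3_0 l_C m_C)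
  have t1 : 0 ≤ ((a - (15/2)) ^ 1) * (1365 + (587/2) * C + (3345/2) * C ^ 2 + (-1324) * C ^ 3 + (-(639/2)) * C ^ 4 + (-15) * C ^ 5) := mul_nonneg (by positivity) (claim3_1 l_C m_C)
  have t2 : 0 ≤ ((a - (15/2)) ^ 2) * ((587/2) + 42 * C + (673/2) * C ^ 2 + (-(581/2)) * C ^ 3 + (-44) * C ^ 4 + (-1) * C ^ 5) := mul_nonneg (by positivity) (claim3_2 l_C m_C)
  have t3 : 0 ≤ ((a - (15/2)) ^ 3) * (28 + 2 * C + 30 * C ^ 2 + (-28) * C ^ 3 + (-2) * C ^ 4) := mul_nonneg (by positivity) (claim3_3 l_C m_C)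
  have t4 : 0 ≤ ((a - (15/2)) ^ 4) * (1 + 1 * C ^ 2 + (-1) * C ^ 3) := mul_nonneg (by positivity) (claim3_4 l_C m_C)
  have h : C * (a + C) * (a - 1) * a ^ 2 - (((C - 1) * ((a + C - 1) * a - C)) * a * ((2 * C ^ 2 - C + 1) * (a + C) - 1) - C * ((C - 1) * ((a + C - 1) * a - C)) ^ 2) = (1/100) + (((1:ℝ)) * ((950621/400) + (1365/2) * C + (49725/16) * C ^ 2 + (-(35789/16)) * C ^ 3 + (-767) * C ^ 4 + (-(221/4)) * C ^ 5) + ((a - (15/2)) ^ 1) * (1365 + (587/2) * C + (3345/2) * C ^ 2 + (-1324) * C ^ 3 + (-(639/2)) * C ^ 4 + (-15) * C ^ 5) + ((a - (15/2)) ^ 2) * ((587/2) + 42 * C + (673/2) * C ^ 2 + (-(581/2)) * C ^ 3 + (-44) * C ^ 4 + (-1) * C ^ 5) + ((a - (15/2)) ^ 3) * (28 + 2 * C + 30 * C ^ 2 + (-28) * C ^ 3 + (-2) * C ^ 4) + ((a - (15/2)) ^ 4) * (1 + 1 * C ^ 2 + (-1) * C ^ 3)) := by ring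
  rw [h]
  exact add_pos_of_pos_of_nonneg (by norm_num) (add_nonneg (add_nonneg (add_nonneg (add_nonneg t0 t1) t2) t3) t4)

end D3fc
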