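import Mathlib

set_option maxHeartbeats 4000000
set_option maxRecDepth 4000

namespace D3fc

lemma claim4_0_0 {C : ℝ} (l_C : 1 ≤ C) (m_C : C ≤ (7/5)) :
    0 ≤ (-(1/16)) + (25/2) * C + (25/4) * C ^ 2 := by
  have hu : 0 ≤ (C - 1) := sub_nonneg.2 l_C
  have hw : 0 ≤ ((7/5) - C) := sub_nonneg.2 m_C
  have t0 : 0 ≤ (((7/5) - C) ^ 2) * ((7475/64)) := mul_nonneg (by positivity) (by norm_num)
  have t1 : 0 ≤ ((C - 1) ^ 1 * ((7/5) - C) ^ 1) * ((9475/32)) := mul_nonneg (by positivity) (by norm_num)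
  have t2 : 0 ≤ ((C - 1) ^ 2) * ((11875/64)) := mul_nonneg (by positivity) (by norm_num)
  have h : (-(1/16)) + (25/2) * C + (25/4) * C ^ 2 = (((7/5) - C) ^ 2) * ((7475/64)) + ((C - 1) ^ 1 * ((7/5) - C) ^ 1) * ((9475/32)) + ((C - 1) ^ 2) * ((11875/64)) := by ring
  rw [h]
  exact (add_nonneg (add_nonneg t0 t1) t2)

lemma claim4_0_1 {C : ℝ} (l_C : 1 ≤ C) (m_C : C ≤ (7/5)) :
    0 ≤ (-(51/16)) + (175/16) * C + (25/8) * C ^ 2 := by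
  have hu : 0 ≤ (C - 1) := sub_nonneg.2 l_C
  have hw : 0 ≤ ((7/5) - C) := sub_nonneg.2 m_C
  have t0 : 0 ≤ (((7/5) - C) ^ 2) * ((2175/32)) := mul_nonneg (by positivity) (by norm_num)
  have t1 : 0 ≤ ((C - 1) ^ 1 * ((7/5) - C) ^ 1) * ((5725/32)) := mul_nonneg (by positivity) (by norm_num)
  have t2 : 0 ≤ ((C - 1) ^ 2) * ((1825/16)) := mul_nonneg (by positivity) (by norm_num)
  have h : (-(51/16)) + (175/16) * C + (25/8) * C ^ 2 = (((7/5) - C) ^ 2) * ((2175/32)) + ((C - 1) ^ 1 * ((7/5) - C) ^ 1) * ((5725/32)) + ((C - 1) ^ 2) * ((1825/16)) := by ring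
  rw [h]
  exact (add_nonneg (add_nonneg t0 t1) t2)

lemma claim4_0 {e C : ℝ} (l_e : 0 ≤ e) (m_e : e ≤ (1/4)) (l_C : 1 ≤ C) (m_C : C ≤ (7/5)) :
    0 ≤ (-(1/64)) + (25/8) * C + (-(25/16)) * C * e + (25/16) * C ^ 2 + (-(25/8)) * C ^ 2 * e + (-(25/8)) * e := by
  have hu : 0 ≤ e := l_e
  have hw : 0 ≤ ((1/4) - e) := sub_nonneg.2 m_e
  have t0 : 0 ≤ (((1/4) - e) ^ 1) * ((-(1/16)) + (25/2) * C + (25/4) * C ^ 2) := mul_nonneg (by positivity) (claim4_0_0 l_C m_C)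
  have t1 : 0 ≤ (e ^ 1) * ((-(51/16)) + (175/16) * C + (25/8) * C ^ 2) := mul_nonneg (by positivity) (claim4_0_1 l_C m_C)
  have h : (-(1/64)) + (25/8) * C + (-(25/16)) * C * e + (25/16) * C ^ 2 + (-(25/8)) * C ^ 2 * e + (-(25/8)) * e = (((1/4) - e) ^ 1) * ((-(1/16)) + (25/2) * C + (25/4) * C ^ 2) + (e ^ 1) * ((-(51/16)) + (175/16) * C + (25/8) * C ^ 2) := by ring
  rw [h]
  exact (add_nonneg t0 t1)

lemma claim4_1_0 {C : ℝ} (l_C : 1 ≤ C) (m_C : C ≤ (7/5)) :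
    0 ≤ (-(1/8)) + 40 * C + (15/2) * C ^ 2 + (-5) * C ^ 3 := by
  have hu : 0 ≤ (C - 1) := sub_nonneg.2 l_C
  have hw : 0 ≤ ((7/5) - C) := sub_nonneg.2 m_C
  have t0 : 0 ≤ (((7/5) - C) ^ 3) * ((42375/64)) := mul_nonneg (by positivity) (by norm_num)
  have t1 : 0 ≤ ((C - 1) ^ 1 * ((7/5) - C) ^ 2) * ((143125/64)) := mul_nonneg (by positivity) (by norm_num)
  have t2 : 0 ≤ ((C - 1) ^ 2 * ((7/5) - C) ^ 1) * ((157925/64)) := mul_nonneg (by positivity) (by norm_num)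
  have t3 : 0 ≤ ((C - 1) ^ 3) * ((56855/64)) := mul_nonneg (by positivity) (by norm_num)
  have h : (-(1/8)) + 40 * C + (15/2) * C ^ 2 + (-5) * C ^ 3 = (((7/5) - C) ^ 3) * ((42375/64)) + ((C - 1) ^ 1 * ((7/5) - C) ^ 2) * ((143125/64)) + ((C - 1) ^ 2 * ((7/5) - C) ^ 1) * ((157925/64)) + ((C - 1) ^ 3) * ((56855/64)) := by ring
  rw [h]
  exact (add_nonneg (add_nonneg (add_nonneg t0 t1) t2) t3)

lemma claim4_1_1 {C : ℝ} (l_C : 1 ≤ C) (m_C : C ≤ (7/5)) :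
    0 ≤ (-(61/8)) + (275/8) * C + (-(5/4)) * C ^ 2 + (-5) * C ^ 3 := by
  have hu : 0 ≤ (C - 1) := sub_nonneg.2 l_C
  have hw : 0 ≤ ((7/5) - C) := sub_nonneg.2 m_C
  have t0 : 0 ≤ (((7/5) - C) ^ 3) * ((5125/16)) := mul_nonneg (by positivity) (by norm_num)
  have t1 : 0 ≤ ((C - 1) ^ 1 * ((7/5) - C) ^ 2) * ((34125/32)) := mul_nonneg (by positivity) (by norm_num)
  have t2 : 0 ≤ ((C - 1) ^ 2 * ((7/5) - C) ^ 1) * ((4525/4)) := mul_nonneg (by positivity) (by norm_num)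
  have t3 : 0 ≤ ((C - 1) ^ 3) * ((12165/32)) := mul_nonneg (by positivity) (by norm_num)
  have h : (-(61/8)) + (275/8) * C + (-(5/4)) * C ^ 2 + (-5) * C ^ 3 = (((7/5) - C) ^ 3) * ((5125/16)) + ((C - 1) ^ 1 * ((7/5) - C) ^ 2) * ((34125/32)) + ((C - 1) ^ 2 * ((7/5) - C) ^ 1) * ((4525/4)) + ((C - 1) ^ 3) * ((12165/32)) := by ring
  rw [h]
  exact (add_nonneg (add_nonneg (add_nonneg t0 t1) t2) t3)

lemma claim4_1 {e C : ℝ} (l_e : 0 ≤ e) (m_e : e ≤ (1/4)) (l_C : 1 ≤ C) (m_C : C ≤ (7/5)) :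
    0 ≤ (-(1/32)) + 10 * C + (-(45/8)) * C * e + (15/8) * C ^ 2 + (-(35/4)) * C ^ 2 * e + (-(5/4)) * C ^ 3 + (-(15/2)) * e := by
  have hu : 0 ≤ e := l_e
  have hw : 0 ≤ ((1/4) - e) := sub_nonneg.2 m_e
  have t0 : 0 ≤ (((1/4) - e) ^ 1) * ((-(1/8)) + 40 * C + (15/2) * C ^ 2 + (-5) * C ^ 3) := mul_nonneg (by positivity) (claim4_1_0 l_C m_C)
  have t1 : 0 ≤ (e ^ 1) * ((-(61/8)) + (275/8) * C + (-(5/4)) * C ^ 2 + (-5) * C ^ 3) := mul_nonneg (by positivity) (claim4_1_1 l_C m_C)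
  have h : (-(1/32)) + 10 * C + (-(45/8)) * C * e + (15/8) * C ^ 2 + (-(35/4)) * C ^ 2 * e + (-(5/4)) * C ^ 3 + (-(15/2)) * e = (((1/4) - e) ^ 1) * ((-(1/8)) + 40 * C + (15/2) * C ^ 2 + (-5) * C ^ 3) + (e ^ 1) * ((-(61/8)) + (275/8) * C + (-(5/4)) * C ^ 2 + (-5) * C ^ 3) := by ring
  rw [h]
  exact (add_nonneg t0 t1)

lemma claim4_2_0 {C : ℝ} (l_C : 1 ≤ C) (m_C : C ≤ (7/5)) :
    0 ≤ (-(1/16)) + (63/2) * C + (-(11/4)) * C ^ 2 + (-5) * C ^ 3 := by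
  have hu : 0 ≤ (C - 1) := sub_nonneg.2 l_C
  have hw : 0 ≤ ((7/5) - C) := sub_nonneg.2 m_C
  have t0 : 0 ≤ (((7/5) - C) ^ 3) * ((47375/128)) := mul_nonneg (by positivity) (by norm_num)
  have t1 : 0 ≤ ((C - 1) ^ 1 * ((7/5) - C) ^ 2) * ((150925/128)) := mul_nonneg (by positivity) (by norm_num)
  have t2 : 0 ≤ ((C - 1) ^ 2 * ((7/5) - C) ^ 1) * ((154045/128)) := mul_nonneg (by positivity) (by norm_num)
  have t3 : 0 ≤ ((C - 1) ^ 3) * ((49855/128)) := mul_nonneg (by positivity) (by norm_num)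
  have h : (-(1/16)) + (63/2) * C + (-(11/4)) * C ^ 2 + (-5) * C ^ 3 = (((7/5) - C) ^ 3) * ((47375/128)) + ((C - 1) ^ 1 * ((7/5) - C) ^ 2) * ((150925/128)) + ((C - 1) ^ 2 * ((7/5) - C) ^ 1) * ((154045/128)) + ((C - 1) ^ 3) * ((49855/128)) := by ring
  rw [h]
  exact (add_nonneg (add_nonneg (add_nonneg t0 t1) t2) t3)

lemma claim4_2_1 {C : ℝ} (l_C : 1 ≤ C) (m_C : C ≤ (7/5)) :
    0 ≤ (-(71/16)) + (423/16) * C + (-(67/8)) * C ^ 2 + (-5) * C ^ 3 := by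
  have hu : 0 ≤ (C - 1) := sub_nonneg.2 l_C
  have hw : 0 ≤ ((7/5) - C) := sub_nonneg.2 m_C
  have t0 : 0 ≤ (((7/5) - C) ^ 3) * ((8625/64)) := mul_nonneg (by positivity) (by norm_num)
  have t1 : 0 ≤ ((C - 1) ^ 1 * ((7/5) - C) ^ 2) * ((11875/32)) := mul_nonneg (by positivity) (by norm_num)
  have t2 : 0 ≤ ((C - 1) ^ 2 * ((7/5) - C) ^ 1) * ((17885/64)) := mul_nonneg (by positivity) (by norm_num)
  have t3 : 0 ≤ ((C - 1) ^ 3) * ((305/8)) := mul_nonneg (by positivity) (by norm_num)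
  have h : (-(71/16)) + (423/16) * C + (-(67/8)) * C ^ 2 + (-5) * C ^ 3 = (((7/5) - C) ^ 3) * ((8625/64)) + ((C - 1) ^ 1 * ((7/5) - C) ^ 2) * ((11875/32)) + ((C - 1) ^ 2 * ((7/5) - C) ^ 1) * ((17885/64)) + ((C - 1) ^ 3) * ((305/8)) := by ring
  rw [h]
  exact (add_nonneg (add_nonneg (add_nonneg t0 t1) t2) t3)

lemma claim4_2 {e C : ℝ} (l_e : 0 ≤ e) (m_e : e ≤ (1/4)) (l_C : 1 ≤ C) (m_C : C ≤ (7/5)) :
    0 ≤ (-(1/64)) + (63/8) * C + (-(81/16)) * C * e + (-(11/16)) * C ^ 2 + (-(45/8)) * C ^ 2 * e + (-(5/4)) * C ^ 3 + (-(35/8)) * e := by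
  have hu : 0 ≤ e := l_e
  have hw : 0 ≤ ((1/4) - e) := sub_nonneg.2 m_e
  have t0 : 0 ≤ (((1/4) - e) ^ 1) * ((-(1/16)) + (63/2) * C + (-(11/4)) * C ^ 2 + (-5) * C ^ 3) := mul_nonneg (by positivity) (claim4_2_0 l_C m_C)
  have t1 : 0 ≤ (e ^ 1) * ((-(71/16)) + (423/16) * C + (-(67/8)) * C ^ 2 + (-5) * C ^ 3) := mul_nonneg (by positivity) (claim4_2_1 l_C m_C)
  have h : (-(1/64)) + (63/8) * C + (-(81/16)) * C * e + (-(11/16)) * C ^ 2 + (-(45/8)) * C ^ 2 * e + (-(5/4)) * C ^ 3 + (-(35/8)) * e = (((1/4) - e) ^ 1) * ((-(1/16)) + (63/2) * C + (-(11/4)) * C ^ 2 + (-5) * C ^ 3) + (e ^ 1) * ((-(71/16)) + (423/16) * C + (-(67/8)) * C ^ 2 + (-5) * C ^ 3) := by ring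
  rw [h]
  exact (add_nonneg t0 t1)

lemma claim4 {a e C : ℝ} (l_a : 2 ≤ a) (m_a : a ≤ (14/5)) (l_e : 0 ≤ e) (m_e : e ≤ (1/4)) (l_C : 1 ≤ C) (m_C : C ≤ (7/5)) :
    0 < C * (a + C) * a + (a + C + e) * (2 * C ^ 2 - C + C ^ 3 - C ^ 2 * (a + C)) - e * a * (C * (a + C) - 2 * C + 1) := by
  have hu : 0 ≤ (a - 2) := sub_nonneg.2 l_a
  have hw : 0 ≤ ((14/5) - a) := sub_nonneg.2 m_a
  have t0 : 0 ≤ (((14/5) - a) ^ 2) * ((-(1/64)) + (25/8) * C + (-(25/16)) * C * e + (25/16) * C ^ 2 + (-(25/8)) * C ^ 2 * e + (-(25/8)) * e) := mul_nonneg (by positivity) (claim4_0 l_e m_e l_C m_C)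
  have t1 : 0 ≤ ((a - 2) ^ 1 * ((14/5) - a) ^ 1) * ((-(1/32)) + 10 * C + (-(45/8)) * C * e + (15/8) * C ^ 2 + (-(35/4)) * C ^ 2 * e + (-(5/4)) * C ^ 3 + (-(15/2)) * e) := mul_nonneg (by positivity) (claim4_1 l_e m_e l_C m_C)
  have t2 : 0 ≤ ((a - 2) ^ 2) * ((-(1/64)) + (63/8) * C + (-(81/16)) * C * e + (-(11/16)) * C ^ 2 + (-(45/8)) * C ^ 2 * e + (-(5/4)) * C ^ 3 + (-(35/8)) * e) := mul_nonneg (by positivity) (claim4_2 l_e m_e l_C m_C)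
  have h : C * (a + C) * a + (a + C + e) * (2 * C ^ 2 - C + C ^ 3 - C ^ 2 * (a + C)) - e * a * (C * (a + C) - 2 * C + 1) = (1/100) + ((((14/5) - a) ^ 2) * ((-(1/64)) + (25/8) * C + (-(25/16)) * C * e + (25/16) * C ^ 2 + (-(25/8)) * C ^ 2 * e + (-(25/8)) * e) + ((a - 2) ^ 1 * ((14/5) - a) ^ 1) * ((-(1/32)) + 10 * C + (-(45/8)) * C * e + (15/8) * C ^ 2 + (-(35/4)) * C ^ 2 * e + (-(5/4)) * C ^ 3 + (-(15/2)) * e) + ((a - 2) ^ 2) * ((-(1/64)) + (63/8) * C + (-(81/16)) * C * e + (-(11/16)) * C ^ 2 + (-(45/8)) * C ^ 2 * e + (-(5/4)) * C ^ 3 + (-(35/8)) * e)) := by ring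
  rw [h]
  exact add_pos_of_pos_of_nonneg (by norm_num) (add_nonneg (add_nonneg t0 t1) t2)

end D3fc
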