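import Mathlib

set_option maxHeartbeats 4000000
set_option maxRecDepth 4000

namespace D3fc

lemma claimQ_0 {C : ℝ} (l_C : 1 ≤ C) (m_C : C ≤ (7/5)) :
    0 ≤ (-(1/100)) + 1 * C ^ 3 + 2 * C ^ 5 + (-2) * C ^ 6 + 1 * C ^ 7 + (-2) * C ^ 8 + 1 * C ^ 9 := by
  have hu : 0 ≤ (C - 1) := sub_nonneg.2 l_C
  have hw : 0 ≤ ((7/5) - C) := sub_nonneg.2 m_C
  have t0 : 0 ≤ (((7/5) - C) ^ 9) * ((7734375/2048)) := mul_nonneg (by positivity) (by norm_num)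
  have t1 : 0 ≤ ((C - 1) ^ 1 * ((7/5) - C) ^ 8) * ((72734375/2048)) := mul_nonneg (by positivity) (by norm_num)
  have t2 : 0 ≤ ((C - 1) ^ 2 * ((7/5) - C) ^ 7) * ((73984375/512)) := mul_nonneg (by positivity) (by norm_num)
  have t3 : 0 ≤ ((C - 1) ^ 3 * ((7/5) - C) ^ 6) * ((169671875/512)) := mul_nonneg (by positivity) (by norm_num)
  have t4 : 0 ≤ ((C - 1) ^ 4 * ((7/5) - C) ^ 5) * ((478115625/1024)) := mul_nonneg (by positivity) (by norm_num)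
  have t5 : 0 ≤ ((C - 1) ^ 5 * ((7/5) - C) ^ 4) * ((421890625/1024)) := mul_nonneg (by positivity) (by norm_num)
  have t6 : 0 ≤ ((C - 1) ^ 6 * ((7/5) - C) ^ 3) * ((113310875/512)) := mul_nonneg (by positivity) (by norm_num)
  have t7 : 0 ≤ ((C - 1) ^ 7 * ((7/5) - C) ^ 2) * ((33968575/512)) := mul_nonneg (by positivity) (by norm_num)
  have t8 : 0 ≤ ((C - 1) ^ 8 * ((7/5) - C) ^ 1) * ((18850815/2048)) := mul_nonneg (by positivity) (by norm_num)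
  have t9 : 0 ≤ ((C - 1) ^ 9) * ((922063/2048)) := mul_nonneg (by positivity) (by norm_num)
  have h : (-(1/100)) + 1 * C ^ 3 + 2 * C ^ 5 + (-2) * C ^ 6 + 1 * C ^ 7 + (-2) * C ^ 8 + 1 * C ^ 9 = (((7/5) - C) ^ 9) * ((7734375/2048)) + ((C - 1) ^ 1 * ((7/5) - C) ^ 8) * ((72734375/2048)) + ((C - 1) ^ 2 * ((7/5) - C) ^ 7) * ((73984375/512)) + ((C - 1) ^ 3 * ((7/5) - C) ^ 6) * ((169671875/512)) + ((C - 1) ^ 4 * ((7/5) - C) ^ 5) * ((478115625/1024)) + ((C - 1) ^ 5 * ((7/5) - C) ^ 4) * ((421890625/1024)) + ((C - 1) ^ 6 * ((7/5) - C) ^ 3) * ((113310875/512)) + ((C - 1) ^ 7 * ((7/5) - C) ^ 2) * ((33968575/512)) + ((C - 1) ^ 8 * ((7/5) - C) ^ 1) * ((18850815/2048)) + ((C - 1) ^ 9) * ((922063/2048)) := by ring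
  rw [h]
  exact (add_nonneg (add_nonneg (add_nonneg (add_nonneg (add_nonneg (add_nonneg (add_nonneg (add_nonneg (add_nonneg t0 t1) t2) t3) t4) t5) t6) t7) t8) t9)

lemma claimQ_1 {C : ℝ} (l_C : 1 ≤ C) (m_C : C ≤ (7/5)) :
    0 ≤ (-(1/25)) + 1 * C ^ 2 + 4 * C ^ 3 + 5 * C ^ 4 + 9 * C ^ 5 + (-1) * C ^ 6 + (-7) * C ^ 8 + (-1) * C ^ 9 + 2 * C ^ 10 := by
  have hu : 0 ≤ (C - 1) := sub_nonneg.2 l_C
  have hw : 0 ≤ ((7/5) - C) := sub_nonneg.2 m_C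
  have t0 : 0 ≤ (((7/5) - C) ^ 10) * ((116796875/1024)) := mul_nonneg (by positivity) (by norm_num)
  have t1 : 0 ≤ ((C - 1) ^ 1 * ((7/5) - C) ^ 9) * ((638671875/512)) := mul_nonneg (by positivity) (by norm_num)
  have t2 : 0 ≤ ((C - 1) ^ 2 * ((7/5) - C) ^ 8) * ((6202734375/1024)) := mul_nonneg (by positivity) (by norm_num)
  have t3 : 0 ≤ ((C - 1) ^ 3 * ((7/5) - C) ^ 7) * ((2195546875/128)) := mul_nonneg (by positivity) (by norm_num)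
  have t4 : 0 ≤ ((C - 1) ^ 4 * ((7/5) - C) ^ 6) * ((16001671875/512)) := mul_nonneg (by positivity) (by norm_num)
  have t5 : 0 ≤ ((C - 1) ^ 5 * ((7/5) - C) ^ 5) * ((9751928125/256)) := mul_nonneg (by positivity) (by norm_num)
  have t6 : 0 ≤ ((C - 1) ^ 6 * ((7/5) - C) ^ 4) * ((15986826875/512)) := mul_nonneg (by positivity) (by norm_num)
  have t7 : 0 ≤ ((C - 1) ^ 7 * ((7/5) - C) ^ 3) * ((2150685375/128)) := mul_nonneg (by positivity) (by norm_num)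
  have t8 : 0 ≤ ((C - 1) ^ 8 * ((7/5) - C) ^ 2) * ((5705796975/1024)) := mul_nonneg (by positivity) (by norm_num)
  have t9 : 0 ≤ ((C - 1) ^ 9 * ((7/5) - C) ^ 1) * ((507216795/512)) := mul_nonneg (by positivity) (by norm_num)
  have t10 : 0 ≤ ((C - 1) ^ 10) * ((67024163/1024)) := mul_nonneg (by positivity) (by norm_num)
  have h : (-(1/25)) + 1 * C ^ 2 + 4 * C ^ 3 + 5 * C ^ 4 + 9 * C ^ 5 + (-1) * C ^ 6 + (-7) * C ^ 8 + (-1) * C ^ 9 + 2 * C ^ 10 = (((7/5) - C) ^ 10) * ((116796875/1024)) + ((C - 1) ^ 1 * ((7/5) - C) ^ 9) * ((638671875/512)) + ((C - 1) ^ 2 * ((7/5) - C) ^ 8) * ((6202734375/1024)) + ((C - 1) ^ 3 * ((7/5) - C) ^ 7) * ((2195546875/128)) + ((C - 1) ^ 4 * ((7/5) - C) ^ 6) * ((16001671875/512)) + ((C - 1) ^ 5 * ((7/5) - C) ^ 5) * ((9751928125/256)) + ((C - 1) ^ 6 * ((7/5) - C) ^ 4) * ((15986826875/512)) + ((C -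 1) ^ 7 * ((7/5) - C) ^ 3) * ((2150685375/128)) + ((C - 1) ^ 8 * ((7/5) - C) ^ 2) * ((5705796975/1024)) + ((C - 1) ^ 9 * ((7/5) - C) ^ 1) * ((507216795/512)) + ((C - 1) ^ 10) * ((67024163/1024)) := by ring
  rw [h]
  exact (add_nonneg (add_nonneg (add_nonneg (add_nonneg (add_nonneg (add_nonneg (add_nonneg (add_nonneg (add_nonneg (add_nonneg t0 t1) t2) t3) t4) t5) t6) t7) t8) t9) t10)

lemma claimQ_2 {C : ℝ} (l_C : 1 ≤ C) (m_C : C ≤ (7/5)) :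
    0 ≤ (-(3/50)) + 2 * C ^ 2 + 6 * C ^ 3 + 13 * C ^ 4 + 18 * C ^ 5 + 14 * C ^ 6 + (-2) * C ^ 7 + (-6) * C ^ 8 + (-13) * C ^ 9 + 3 * C ^ 10 + 1 * C ^ 11 := by
  have hu : 0 ≤ (C - 1) := sub_nonneg.2 l_C
  have hw : 0 ≤ ((7/5) - C) := sub_nonneg.2 m_C
  have t0 : 0 ≤ (((7/5) - C) ^ 11) * ((3509765625/4096)) := mul_nonneg (by positivity) (by norm_num)
  have t1 : 0 ≤ ((C - 1) ^ 1 * ((7/5) - C) ^ 10) * ((42904296875/4096)) := mul_nonneg (by positivity) (by norm_num)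
  have t2 : 0 ≤ ((C - 1) ^ 2 * ((7/5) - C) ^ 9) * ((236005859375/4096)) := mul_nonneg (by positivity) (by norm_num)
  have t3 : 0 ≤ ((C - 1) ^ 3 * ((7/5) - C) ^ 8) * ((769626953125/4096)) := mul_nonneg (by positivity) (by norm_num)
  have t4 : 0 ≤ ((C - 1) ^ 4 * ((7/5) - C) ^ 7) * ((824480078125/2048)) := mul_nonneg (by positivity) (by norm_num)
  have t5 : 0 ≤ ((C - 1) ^ 5 * ((7/5) - C) ^ 6) * ((1214285984375/2048)) := mul_nonneg (by positivity) (by norm_num)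
  have t6 : 0 ≤ ((C - 1) ^ 6 * ((7/5) - C) ^ 5) * ((1247971759375/2048)) := mul_nonneg (by positivity) (by norm_num)
  have t7 : 0 ≤ ((C - 1) ^ 7 * ((7/5) - C) ^ 4) * ((887971463125/2048)) := mul_nonneg (by positivity) (by norm_num)
  have t8 : 0 ≤ ((C - 1) ^ 8 * ((7/5) - C) ^ 3) * ((846203236125/4096)) := mul_nonneg (by positivity) (by norm_num)
  have t9 : 0 ≤ ((C - 1) ^ 9 * ((7/5) - C) ^ 2) * ((250972931575/4096)) := mul_nonneg (by positivity) (by norm_num)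
  have t10 : 0 ≤ ((C - 1) ^ 10 * ((7/5) - C) ^ 1) * ((39499565635/4096)) := mul_nonneg (by positivity) (by norm_num)
  have t11 : 0 ≤ ((C - 1) ^ 11) * ((2103029281/4096)) := mul_nonneg (by positivity) (by norm_num)
  have h : (-(3/50)) + 2 * C ^ 2 + 6 * C ^ 3 + 13 * C ^ 4 + 18 * C ^ 5 + 14 * C ^ 6 + (-2) * C ^ 7 + (-6) * C ^ 8 + (-13) * C ^ 9 + 3 * C ^ 10 + 1 * C ^ 11 = (((7/5) - C) ^ 11) * ((3509765625/4096)) + ((C - 1) ^ 1 * ((7/5) - C) ^ 10) * ((42904296875/4096)) + ((C - 1) ^ 2 * ((7/5) - C) ^ 9) * ((236005859375/4096)) + ((C - 1) ^ 3 * ((7/5) - C) ^ 8) * ((769626953125/4096)) + ((C - 1) ^ 4 * ((7/5) - C) ^ 7) * ((824480078125/2048)) + ((C - 1) ^ 5 * ((7/5) - C) ^ 6) * ((1214285984375/2048)) + ((C - 1) ^ 6 * ((7/5) - C) ^ 5) * ((1247971759375/2048)) + ((C - 1) ^ 7 * ((7/5) - C) ^ 4) * ((887971463125/2048)) + ((C - 1)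 ^ 8 * ((7/5) - C) ^ 3) * ((846203236125/4096)) + ((C - 1) ^ 9 * ((7/5) - C) ^ 2) * ((250972931575/4096)) + ((C - 1) ^ 10 * ((7/5) - C) ^ 1) * ((39499565635/4096)) + ((C - 1) ^ 11) * ((2103029281/4096)) := by ring
  rw [h]
  exact (add_nonneg (add_nonneg (add_nonneg (add_nonneg (add_nonneg (add_nonneg (add_nonneg (add_nonneg (add_nonneg (add_nonneg (add_nonneg t0 t1) t2) t3) t4) t5) t6) t7) t8) t9) t10) t11)

lemma claimQ_3 {C : ℝ} (l_C : 1 ≤ C) (m_C : C ≤ (7/5)) :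
    0 ≤ (-(1/25)) + 1 * C ^ 2 + 3 * C ^ 3 + 9 * C ^ 4 + 16 * C ^ 5 + 20 * C ^ 6 + 7 * C ^ 7 + (-1) * C ^ 8 + (-12) * C ^ 9 + (-5) * C ^ 10 + 2 * C ^ 11 := by
  have hu : 0 ≤ (C - 1) := sub_nonneg.2 l_C
  have hw : 0 ≤ ((7/5) - C) := sub_nonneg.2 m_C
  have t0 : 0 ≤ (((7/5) - C) ^ 11) * ((1951171875/2048)) := mul_nonneg (by positivity) (by norm_num)
  have t1 : 0 ≤ ((C - 1) ^ 1 * ((7/5) - C) ^ 10) * ((24431640625/2048)) := mul_nonneg (by positivity) (by norm_num)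
  have t2 : 0 ≤ ((C - 1) ^ 2 * ((7/5) - C) ^ 9) * ((137751953125/2048)) := mul_nonneg (by positivity) (by norm_num)
  have t3 : 0 ≤ ((C - 1) ^ 3 * ((7/5) - C) ^ 8) * ((460755859375/2048)) := mul_nonneg (by positivity) (by norm_num)
  have t4 : 0 ≤ ((C - 1) ^ 4 * ((7/5) - C) ^ 7) * ((506607109375/1024)) := mul_nonneg (by positivity) (by norm_num)
  have t5 : 0 ≤ ((C - 1) ^ 5 * ((7/5) - C) ^ 6) * ((766242953125/1024)) := mul_nonneg (by positivity) (by norm_num)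
  have t6 : 0 ≤ ((C - 1) ^ 6 * ((7/5) - C) ^ 5) * ((809056153125/1024)) := mul_nonneg (by positivity) (by norm_num)
  have t7 : 0 ≤ ((C - 1) ^ 7 * ((7/5) - C) ^ 4) * ((591409439375/1024)) := mul_nonneg (by positivity) (by norm_num)
  have t8 : 0 ≤ ((C - 1) ^ 8 * ((7/5) - C) ^ 3) * ((578390371375/2048)) := mul_nonneg (by positivity) (by norm_num)
  have t9 : 0 ≤ ((C - 1) ^ 9 * ((7/5) - C) ^ 2) * ((175388393525/2048)) := mul_nonneg (by positivity) (by norm_num)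
  have t10 : 0 ≤ ((C - 1) ^ 10 * ((7/5) - C) ^ 1) * ((27868462465/2048)) := mul_nonneg (by positivity) (by norm_num)
  have t11 : 0 ≤ ((C - 1) ^ 11) * ((1407809411/2048)) := mul_nonneg (by positivity) (by norm_num)
  have h : (-(1/25)) + 1 * C ^ 2 + 3 * C ^ 3 + 9 * C ^ 4 + 16 * C ^ 5 + 20 * C ^ 6 + 7 * C ^ 7 + (-1) * C ^ 8 + (-12) * C ^ 9 + (-5) * C ^ 10 + 2 * C ^ 11 = (((7/5) - C) ^ 11) * ((1951171875/2048)) + ((C - 1) ^ 1 * ((7/5) - C) ^ 10) * ((24431640625/2048)) + ((C - 1) ^ 2 * ((7/5) - C) ^ 9) * ((137751953125/2048)) + ((C - 1) ^ 3 * ((7/5) - C) ^ 8) * ((460755859375/2048)) + ((C - 1) ^ 4 * ((7/5) - C) ^ 7) * ((506607109375/1024)) + ((C - 1) ^ 5 * ((7/5) - C) ^ 6) * ((766242953125/1024)) + ((C - 1) ^ 6 * ((7/5) - C) ^ 5) * ((809056153125/1024)) + ((C - 1) ^ 7 * ((7/5) - C) ^ 4) * ((591409439375/1024)) + ((C - 1) ^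 8 * ((7/5) - C) ^ 3) * ((578390371375/2048)) + ((C - 1) ^ 9 * ((7/5) - C) ^ 2) * ((175388393525/2048)) + ((C - 1) ^ 10 * ((7/5) - C) ^ 1) * ((27868462465/2048)) + ((C - 1) ^ 11) * ((1407809411/2048)) := by ring
  rw [h]
  exact (add_nonneg (add_nonneg (add_nonneg (add_nonneg (add_nonneg (add_nonneg (add_nonneg (add_nonneg (add_nonneg (add_nonneg (add_nonneg t0 t1) t2) t3) t4) t5) t6) t7) t8) t9) t10) t11)

lemma claimQ_4 {C : ℝ} (l_C : 1 ≤ C) (m_C : C ≤ (7/5)) :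
    0 ≤ (-(1/100)) + 1 * C ^ 4 + 4 * C ^ 5 + 7 * C ^ 6 + 6 * C ^ 7 + 2 * C ^ 8 + (-2) * C ^ 9 + (-4) * C ^ 10 := by
  have hu : 0 ≤ (C - 1) := sub_nonneg.2 l_C
  have hw : 0 ≤ ((7/5) - C) := sub_nonneg.2 m_C
  have t0 : 0 ≤ (((7/5) - C) ^ 10) * ((546484375/4096)) := mul_nonneg (by positivity) (by norm_num)
  have t1 : 0 ≤ ((C - 1) ^ 1 * ((7/5) - C) ^ 9) * ((3248046875/2048)) := mul_nonneg (by positivity) (by norm_num)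
  have t2 : 0 ≤ ((C - 1) ^ 2 * ((7/5) - C) ^ 8) * ((34379296875/4096)) := mul_nonneg (by positivity) (by norm_num)
  have t3 : 0 ≤ ((C - 1) ^ 3 * ((7/5) - C) ^ 7) * ((13299765625/512)) := mul_nonneg (by positivity) (by norm_num)
  have t4 : 0 ≤ ((C - 1) ^ 4 * ((7/5) - C) ^ 6) * ((106230359375/2048)) := mul_nonneg (by positivity) (by norm_num)
  have t5 : 0 ≤ ((C - 1) ^ 5 * ((7/5) - C) ^ 5) * ((71115040625/1024)) := mul_nonneg (by positivity) (by norm_num)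
  have t6 : 0 ≤ ((C - 1) ^ 6 * ((7/5) - C) ^ 4) * ((128187619375/2048)) := mul_nonneg (by positivity) (by norm_num)
  have t7 : 0 ≤ ((C - 1) ^ 7 * ((7/5) - C) ^ 3) * ((18911535625/512)) := mul_nonneg (by positivity) (by norm_num)
  have t8 : 0 ≤ ((C - 1) ^ 8 * ((7/5) - C) ^ 2) * ((54319139275/4096)) := mul_nonneg (by positivity) (by norm_num)
  have t9 : 0 ≤ ((C - 1) ^ 9 * ((7/5) - C) ^ 1) * ((4986474235/2048)) := mul_nonneg (by positivity) (by norm_num)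
  have t10 : 0 ≤ ((C - 1) ^ 10) * ((538720311/4096)) := mul_nonneg (by positivity) (by norm_num)
  have h : (-(1/100)) + 1 * C ^ 4 + 4 * C ^ 5 + 7 * C ^ 6 + 6 * C ^ 7 + 2 * C ^ 8 + (-2) * C ^ 9 + (-4) * C ^ 10 = (((7/5) - C) ^ 10) * ((546484375/4096)) + ((C - 1) ^ 1 * ((7/5) - C) ^ 9) * ((3248046875/2048)) + ((C - 1) ^ 2 * ((7/5) - C) ^ 8) * ((34379296875/4096)) + ((C - 1) ^ 3 * ((7/5) - C) ^ 7) * ((13299765625/512)) + ((C - 1) ^ 4 * ((7/5) - C) ^ 6) * ((106230359375/2048)) + ((C - 1) ^ 5 * ((7/5) - C) ^ 5) * ((71115040625/1024)) + ((C - 1) ^ 6 * ((7/5) - C) ^ 4) * ((128187619375/2048)) + ((C - 1) ^ 7 * ((7/5) - C) ^ 3) * ((18911535625/512)) + ((C - 1) ^ 8 * ((7/5) - C) ^ 2) * ((54319139275/4096)) + ((C - 1) ^ 9 * ((7/5) - C) ^ 1) * ((4986474235/2048)) + ((C - 1) ^ 10) * ((538720311/4096)) := by ring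
  rw [h]
  exact (add_nonneg (add_nonneg (add_nonneg (add_nonneg (add_nonneg (add_nonneg (add_nonneg (add_nonneg (add_nonneg (add_nonneg t0 t1) t2) t3) t4) t5) t6) t7) t8) t9) t10)

lemma claimQ {s C : ℝ} (l_s : 0 ≤ s) (m_s : s ≤ 1) (l_C : 1 ≤ C) (m_C : C ≤ (7/5)) :
    0 < C * (1 + (C * s)) * (C - (C * s)) * ((C + 1) * (C * s) + (1 + C ^ 2 - C ^ 3)) ^ 2 - C * ((1 - C - C ^ 2 + C ^ 4) * (C * s) - (1 + C ^ 2 - C ^ 3) * C - (2 * C ^ 2 - C ^ 3) * (C * s) ^ 2) ^ 2 - ((1 - C - C ^ 2 + C ^ 4) * (C * s) - (1 + C ^ 2 - C ^ 3) * C - (2 * C ^ 2 - C ^ 3) * (C * s) ^ 2) * ((C + 1) * (C * s) + (1 + C ^ 2 - C ^ 3)) * ((2 * C ^ 2 - C) * (1 + (C * s)) + (C * s)) := by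
  have hu : 0 ≤ s := l_s
  have hw : 0 ≤ (1 - s) := sub_nonneg.2 m_s
  have t0 : 0 ≤ ((1 - s) ^ 4) * ((-(1/100)) + 1 * C ^ 3 + 2 * C ^ 5 + (-2) * C ^ 6 + 1 * C ^ 7 + (-2) * C ^ 8 + 1 * C ^ 9) := mul_nonneg (by positivity) (claimQ_0 l_C m_C)
  have t1 : 0 ≤ (s ^ 1 * (1 - s) ^ 3) * ((-(1/25)) + 1 * C ^ 2 + 4 * C ^ 3 + 5 * C ^ 4 + 9 * C ^ 5 + (-1) * C ^ 6 + (-7) * C ^ 8 + (-1) * C ^ 9 + 2 * C ^ 10) := mul_nonneg (by positivity) (claimQ_1 l_C m_C)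
  have t2 : 0 ≤ (s ^ 2 * (1 - s) ^ 2) * ((-(3/50)) + 2 * C ^ 2 + 6 * C ^ 3 + 13 * C ^ 4 + 18 * C ^ 5 + 14 * C ^ 6 + (-2) * C ^ 7 + (-6) * C ^ 8 + (-13) * C ^ 9 + 3 * C ^ 10 + 1 * C ^ 11) := mul_nonneg (by positivity) (claimQ_2 l_C m_C)
  have t3 : 0 ≤ (s ^ 3 * (1 - s) ^ 1) * ((-(1/25)) + 1 * C ^ 2 + 3 * C ^ 3 + 9 * C ^ 4 + 16 * C ^ 5 + 20 * C ^ 6 + 7 * C ^ 7 + (-1) * C ^ 8 + (-12) * C ^ 9 + (-5) * C ^ 10 + 2 * C ^ 11) := mul_nonneg (by positivity) (claimQ_3 l_C m_C)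
  have t4 : 0 ≤ (s ^ 4) * ((-(1/100)) + 1 * C ^ 4 + 4 * C ^ 5 + 7 * C ^ 6 + 6 * C ^ 7 + 2 * C ^ 8 + (-2) * C ^ 9 + (-4) * C ^ 10) := mul_nonneg (by positivity) (claimQ_4 l_C m_C)
  have h : C * (1 + (C * s)) * (C - (C * s)) * ((C + 1) * (C * s) + (1 + C ^ 2 - C ^ 3)) ^ 2 - C * ((1 - C - C ^ 2 + C ^ 4) * (C * s) - (1 + C ^ 2 - C ^ 3) * C - (2 * C ^ 2 - C ^ 3) * (C * s) ^ 2) ^ 2 - ((1 - C - C ^ 2 + C ^ 4) * (C * s) - (1 + C ^ 2 - C ^ 3) * C - (2 * C ^ 2 - C ^ 3) * (C * s) ^ 2) * ((C + 1) * (C * s) + (1 + C ^ 2 - C ^ 3)) * ((2 * C ^ 2 - C) * (1 + (C * s)) + (C * s)) = (1/100) + (((1 - s) ^ 4) * ((-(1/100)) + 1 * C ^ 3 + 2 * C ^ 5 + (-2) * C ^ 6 + 1 * C ^ 7 + (-2) * C ^ 8 + 1 * C ^ 9) + (s ^ 1 * (1 - s) ^ 3) * ((-(1/25)) + 1 * C ^ 2 + 4 * C ^ 3 + 5 * C ^ 4 + 9 * C ^ 5 + (-1) * C ^ 6 + (-7) * C ^ 8 + (-1) * C ^ 9 + 2 * C ^ 10)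 + (s ^ 2 * (1 - s) ^ 2) * ((-(3/50)) + 2 * C ^ 2 + 6 * C ^ 3 + 13 * C ^ 4 + 18 * C ^ 5 + 14 * C ^ 6 + (-2) * C ^ 7 + (-6) * C ^ 8 + (-13) * C ^ 9 + 3 * C ^ 10 + 1 * C ^ 11) + (s ^ 3 * (1 - s) ^ 1) * ((-(1/25)) + 1 * C ^ 2 + 3 * C ^ 3 + 9 * C ^ 4 + 16 * C ^ 5 + 20 * C ^ 6 + 7 * C ^ 7 + (-1) * C ^ 8 + (-12) * C ^ 9 + (-5) * C ^ 10 + 2 * C ^ 11) + (s ^ 4) * ((-(1/100)) + 1 * C ^ 4 + 4 * C ^ 5 + 7 * C ^ 6 + 6 * C ^ 7 + 2 * C ^ 8 + (-2) * C ^ 9 + (-4) * C ^ 10)) := by ring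
  rw [h]
  exact add_pos_of_pos_of_nonneg (by norm_num) (add_nonneg (add_nonneg (add_nonneg (add_nonneg t0 t1) t2) t3) t4)

end D3fc
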