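import Pool.Agent.D3fc.Core3
import Pool.Agent.D3fc.Limit
import Pool.Agent.D3fc.P_claim1
import Pool.Agent.D3fc.P_claim3
import Pool.Agent.D3fc.P_claim4
import Pool.Agent.D3fc.P_claimQ
import Pool.Agent.D3fc.P_claim2

set_option maxHeartbeats 4000000

namespace D3fc

/-- case B is contradictory -/
lemma caseB_false {C I S τ : ℝ} (hC : 1 < C) (hC2 : C ≤ 7/5) (hI : 1 < I)
    (hS : 1 + C ≤ S) (hτ : I - 1 ≤ τ)
    (h1 : C * I ^ 2 * (S - 1) ^ 2 ≤ ((S - 1) * I + C ^ 2 * S) * ((C - 1) * S + 1))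
    (h2 : (τ * S + C ^ 2 * I) * (C * τ + (C + 1 - I)) ≤ C * S ^ 2 * (I - 1) * τ)
    (hB : (I - 1) ^ 2 * S < C * I * (C + 1 - I))
    (hε0 : 0 ≤ I * S - S - C * I) : False := by
  obtain ⟨a, ha⟩ : ∃ a, a = S - C := ⟨_, rfl⟩
  have hSa : S = a + C := by rw [ha]; ring
  have ha0 : 0 < a := by linarith
  obtain ⟨ε, hε⟩ : ∃ ε, ε = I * S - S - C * I := ⟨_, rfl⟩
  have hε00 : 0 ≤ ε := by rw [hε]; exact hε0
  have ha2 : 2 ≤ a := a_ge_two hC hI ha0 hSa hB hε hε00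
  -- ε ≤ 1/4
  have he : ε ≤ 1/4 := by
    by_contra hcon
    push Not at hcon
    exact e1_contra (e0 := 1/4) hC ha0 hSa h1 (by norm_num) (by rw [← hε]; exact hcon.le)
      (claim1 ha2 hC.le hC2)
  have ha8 : a ≤ 8 := by
    by_contra hcon
    push Not at hcon
    have h3 := claim3 (a := a) (C := C) (by linarith) hC.le hC2
    refine e1_contra (e0 := 0) hC ha0 hSa h1 le_rfl hε0 ?_
    have h4 : ((C - 1) * ((a + C - 1) * a - C - 0) - 0 * a)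
      = ((C - 1) * ((a + C - 1) * a - C)) := by ring
    rw [h4]
    exact h3
  rcases le_total a (14/5) with h14 | h14
  · have h3 := claim4 ha2 h14 hε00 he hC.le hC2
    have h4 := e2_B hC hI ha0 hSa hτ h2 hB hε
    linarith
  · have h3 := claim2 (a := a) (by linarith) ha8 hε00 he hC.le hC2
    have h4 := e2_free hC (by linarith) ha0 hSa h2 hε
    linarith

/-- case A is contradictory -/
lemma caseA_false {C I S : ℝ} (hC : 1 < C) (hC2 : C ≤ 7/5) (hI : 1 < I) (hI2 : I ≤ 1 + C)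
    (hS : 1 + C ≤ S) (hIS : I < S)
    (h1 : C * I ^ 2 * (S - 1) ^ 2 ≤ ((S - 1) * I + C ^ 2 * S) * ((C - 1) * S + 1))
    (h2 : ((I - 1) * S + C ^ 2 * I) * ((C - 1) * I + 1) ≤ C * S ^ 2 * (I - 1) ^ 2)
    (hε0 : 0 ≤ I * S - S - C * I) : False := by
  have h3 := star hIS h1 h2
  have h4 := e2_eps h2
  obtain ⟨ε, hε⟩ : ∃ ε, ε = I * S - S - C * I := ⟨_, rfl⟩
  rw [← hε] at hε0 h4
  have hC0 : 0 < C := by linarith
  obtain ⟨s, hs⟩ : ∃ s, s = (I - 1) / C := ⟨_, rfl⟩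
  have hs' : C * s = I - 1 := by rw [hs]; field_simp
  have hs0 : 0 ≤ s := by rw [hs]; exact div_nonneg (by linarith) hC0.le
  have hs1 : s ≤ 1 := by rw [hs, div_le_one hC0]; linarith
  have hQ := claimQ hs0 hs1 hC.le hC2
  rw [hs'] at hQ
  obtain ⟨i, hi⟩ : ∃ i, i = I - 1 := ⟨_, rfl⟩
  have hIi : I = 1 + i := by rw [hi]; ring
  rw [← hi] at hQ
  obtain ⟨M, hM⟩ : ∃ M, M = (C + 1) * i + (1 + C ^ 2 - C ^ 3) := ⟨_, rfl⟩
  obtain ⟨N, hN⟩ : ∃ N, N = (1 - C - C ^ 2 + C ^ 4) * i - (1 + C ^ 2 - C ^ 3) * C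
    - (2 * C ^ 2 - C ^ 3) * i ^ 2 := ⟨_, rfl⟩
  rw [← hM, ← hN] at hQ
  have hi0 : 0 < i := by linarith
  have hiC : i ≤ C := by linarith
  -- ε M ≤ N
  have hεM : ε * M ≤ N := by
    have h5 : (C + 1) * ε + (1 + C ^ 2 - C ^ 3) * S + (2 * C ^ 2 - C ^ 3) * I ≤ 1 + C ^ 2 := by
      rw [hε]; linarith
    have h6 := mul_le_mul_of_nonneg_left h5 hi0.le
    have h7 : i * S = ε + C + C * i := by rw [hε, hIi]; ring
    have h8 : i * ((C + 1) * ε + (1 + C ^ 2 - C ^ 3) * S + (2 * C ^ 2 - C ^ 3) * I)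
        = (C + 1) * ε * i + (1 + C ^ 2 - C ^ 3) * (ε + C + C * i)
          + (2 * C ^ 2 - C ^ 3) * (1 + i) * i := by
      rw [← h7, hIi]; ring
    rw [h8] at h6
    rw [hM, hN]
    linarith
  have hA : 0 < 1 + C ^ 2 - C ^ 3 := by
    nlinarith [mul_nonneg (show (0:ℝ) ≤ C - 1 by linarith) (show (0:ℝ) ≤ 7/5 - C by linarith),
      mul_nonneg (mul_nonneg (show (0:ℝ) ≤ C - 1 by linarith)
        (show (0:ℝ) ≤ 7/5 - C by linarith)) hC0.le]
  have hM0 : 0 < M := by rw [hM]; positivity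
  have hεM0 : 0 ≤ ε * M := mul_nonneg hε0 hM0.le
  have hN0 : 0 ≤ N := hεM0.trans hεM
  -- multiply E2' by M^2
  have h9 : C * (1 + i) * (C - i) * M ^ 2 ≤
      C * (ε * M) ^ 2 + (ε * M) * M * ((2 * C ^ 2 - C) * (1 + i) + i) := by
    have h10 : C * (1 + i) * (C - i) ≤ C * ε ^ 2 + ε * ((2 * C ^ 2 - C) * (1 + i) + i) := by
      have h11 : C * I * (C + 1 - I) = C * (1 + i) * (C - i) := by rw [hIi]; ring
      have h12 : ε * ((2 * C ^ 2 - C + 1) * I - 1) = ε * ((2 * C ^ 2 - C) * (1 + i) + i) := by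
        rw [hIi]; ring
      rw [h11, h12] at h4
      exact h4
    have h13 := mul_le_mul_of_nonneg_right h10 (show (0:ℝ) ≤ M ^ 2 by positivity)
    calc C * (1 + i) * (C - i) * M ^ 2 ≤
          (C * ε ^ 2 + ε * ((2 * C ^ 2 - C) * (1 + i) + i)) * M ^ 2 := h13
      _ = _ := by ring
  have hK : 0 ≤ (2 * C ^ 2 - C) * (1 + i) + i := by
    have : 0 ≤ 2 * C ^ 2 - C := by nlinarith
    positivity
  have h14 : (ε * M) * M * ((2 * C ^ 2 - C) * (1 + i) + i)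
      ≤ N * M * ((2 * C ^ 2 - C) * (1 + i) + i) :=
    mul_le_mul_of_nonneg_right (mul_le_mul_of_nonneg_right hεM hM0.le) hK
  have h15 : C * (ε * M) ^ 2 ≤ C * N ^ 2 :=
    mul_le_mul_of_nonneg_left (pow_le_pow_left₀ hεM0 hεM 2) hC0.le
  linarith

lemma core {C : ℝ} (hC : 1 < C) (hC2 : C ≤ 7/5) (I S : ℝ) (hI : 1 < I) (hI2 : I ≤ 1 + C)
    (hS : 1 + C ≤ S) (wS : Win C I S S) (wI : Win C I S I) : I = 1 + C ∧ S = 1 + C := by
  rcases (hI2.trans hS).eq_or_lt with h | hIS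
  · constructor <;> linarith
  exfalso
  have h1 := upper hC hI hS wS
  obtain ⟨τ, hτ, h2⟩ := lower hC hI hI2 hIS.le wI
  have h3 := (one_step hC hI wI).2
  have hε0 : 0 ≤ I * S - S - C * I := by linarith
  rcases le_or_gt (C * I * (C + 1 - I)) ((I - 1) ^ 2 * S) with hA | hB
  · exact caseA_false hC hC2 hI hI2 hS hIS h1 (caseA hC hI hI2 hS hτ h2 hA) hε0
  · exact caseB_false hC hC2 hI hS hτ h1 h2 hB hε0

/-- Global attractivity for `1 < C ≤ 7/5`. -/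
theorem main {C : ℝ} (hC : 1 < C) (hC2 : C ≤ 7/5) (x : ℕ → ℝ) (h0 : 0 < x 0) (h1 : 0 < x 1)
    (h2 : 0 < x 2) (hrec : ∀ n, x (n + 3) = x n / (C * x (n + 1) + x n)) :
    Filter.Tendsto x Filter.atTop (nhds (1 / (C + 1))) :=
  attract hC (by linarith) (core hC hC2) h0 h1 h2 hrec

end D3fc
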